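import Mathlib
import Pool.Agent.Work.MP_787500_nt.OV.Defs
import Pool.Agent.Work.MP_787500_nt.SH.RDefs

/-!
Parity of ordinary (Greenberg) Selmer groups over an open subgroup `H` of the absolute Galois group (over a finite
extension of an imaginary quadratic field): definitions used in the statement of the theorem. `annih` is in
`OV/Defs.lean`, `fixedModulo` in `QX/FDefs.lean`, `IsReps`, `condI`, `condR` in `SH/RDefs.lean`.
-/

set_option autoImplicit false

namespace Pool.Agent.Work.MP_787500_nt.SG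

open Matrix

variable {G : Type*} [Group G] [TopologicalSpace G] {E : Type*} [NormedField E] {n : ℕ}

/-- `x` is a continuous cocycle of `G`, its restriction to every subgroup in `N` is a coboundary, and for every `i` it
is a coboundary modulo `W i` on `D i`, and `x ∘ κ` is a coboundary modulo the annihilator of `W i` on `D i` (for the
action by `ρ ∘ κ`). -/
def IsOrdFam (N : Set (Subgroup G)) (κ : G → G) (ρ : G →* Matrix (Fin n) (Fin n) E)
    (b : Matrix (Fin n) (Fin n) E) {Φ : Type*} (D : Φ → Subgroup G) (W : Φ → Submodule E (Fin n → E))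
    (x : G → Fin n → E) : Prop :=
  Parity.IsCocycle ρ x ∧ (∀ I ∈ N, ∃ v : Fin n → E, ∀ σ ∈ I, x σ = ρ σ *ᵥ v - v) ∧
    ∀ i, (∃ v, ∀ σ ∈ D i, x σ - (ρ σ *ᵥ v - v) ∈ W i) ∧
      ∃ v, ∀ σ ∈ D i, x (κ σ) - (ρ (κ σ) *ᵥ v - v) ∈ Parity.annih b (W i)

/-- the space of these cocycles -/
def selOrdFam (N : Set (Subgroup G)) (κ : G → G) (ρ : G →* Matrix (Fin n) (Fin n) E)
    (b : Matrix (Fin n) (Fin n) E) {Φ : Type*} (D : Φ → Subgroup G)
    (W : Φ → Submodule E (Fin n → E)) : Submodule E (G → Fin n → E) where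
  carrier := {x | IsOrdFam N κ ρ b D W x}
  add_mem' := by
    have key : ∀ {M : Submodule E (Fin n → E)} {A : Matrix (Fin n) (Fin n) E} {x y v w : Fin n → E},
        x - (A *ᵥ v - v) ∈ M → y - (A *ᵥ w - w) ∈ M → x + y - (A *ᵥ (v + w) - (v + w)) ∈ M := by
      intro M A x y v w h1 h2
      have h : x + y - (A *ᵥ (v + w) - (v + w)) = (x - (A *ᵥ v - v)) + (y - (A *ᵥ w - w)) := by
        rw [mulVec_add]
        abel
      rw [h]
      exact M.add_mem h1 h2
    rintro x y ⟨h1, h2, h3⟩ ⟨k1, k2, k3⟩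
    refine ⟨h1.add k1, fun I hI => ?_, fun i => ⟨?_, ?_⟩⟩
    · obtain ⟨v, hv⟩ := h2 I hI
      obtain ⟨w, hw⟩ := k2 I hI
      refine ⟨v + w, fun σ hσ => ?_⟩
      rw [Pi.add_apply, hv σ hσ, hw σ hσ, mulVec_add]
      abel
    · obtain ⟨v, hv⟩ := (h3 i).1
      obtain ⟨w, hw⟩ := (k3 i).1
      exact ⟨v + w, fun σ hσ => key (hv σ hσ) (hw σ hσ)⟩
    · obtain ⟨v, hv⟩ := (h3 i).2
      obtain ⟨w, hw⟩ := (k3 i).2
      exact ⟨v + w, fun σ hσ => key (hv σ hσ) (hw σ hσ)⟩
  zero_mem' := ⟨Parity.IsCocycle.zero _, fun I _ => ⟨0, fun σ _ => by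
    rw [mulVec_zero, sub_zero, Pi.zero_apply]⟩, fun i => ⟨⟨0, fun σ _ => by simp⟩,
      ⟨0, fun σ _ => by simp⟩⟩⟩
  smul_mem' := by
    have key : ∀ {M : Submodule E (Fin n → E)} {A : Matrix (Fin n) (Fin n) E} {x v : Fin n → E}
        (a : E), x - (A *ᵥ v - v) ∈ M → a • x - (A *ᵥ (a • v) - a • v) ∈ M := by
      intro M A x v a h1
      have h : a • x - (A *ᵥ (a • v) - a • v) = a • (x - (A *ᵥ v - v)) := by
        rw [mulVec_smul]
        module
      rw [h]
      exact M.smul_mem a h1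
    rintro a x ⟨h1, h2, h3⟩
    refine ⟨h1.smul a, fun I hI => ?_, fun i => ⟨?_, ?_⟩⟩
    · obtain ⟨v, hv⟩ := h2 I hI
      refine ⟨a • v, fun σ hσ => ?_⟩
      rw [Pi.smul_apply, hv σ hσ, mulVec_smul, smul_sub]
    · obtain ⟨v, hv⟩ := (h3 i).1
      exact ⟨a • v, fun σ hσ => key a (hv σ hσ)⟩
    · obtain ⟨v, hv⟩ := (h3 i).2
      exact ⟨a • v, fun σ hσ => key a (hv σ hσ)⟩

open scoped Classical in
/-- The Selmer space is finite dimensional, it contains the coboundaries, and its dimension modulo the coboundaries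
plus the dimension of the space of vectors fixed by `G` is congruent modulo 2 to `a` plus the sum over `i` of `f i`
times the dimension of `W i`, of the dimension of the space of vectors of the quotient by `W i` fixed by `D i`, and, if
`s` holds, of the same dimension for the annihilator of `W i` and the action by `ρ ∘ κ`. -/
def ParityOrdFam (N : Set (Subgroup G)) (κ : G → G) (ρ : G →* Matrix (Fin n) (Fin n) E)
    (b : Matrix (Fin n) (Fin n) E) {Φ : Type*} [Fintype Φ] (D : Φ → Subgroup G)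
    (W : Φ → Submodule E (Fin n → E)) (f : Φ → ℕ) (s : Prop) (a : ℕ) : Prop :=
  FiniteDimensional E (selOrdFam N κ ρ b D W) ∧
    Parity.coboundaries ρ ≤ selOrdFam N κ ρ b D W ∧
    Parity.dimModulo (selOrdFam N κ ρ b D W) (Parity.coboundaries ρ) +
        Module.finrank E (Parity.fixedBy (fun σ : G => ρ σ)) ≡
      ∑ i, (f i * Module.finrank E (W i) +
          Parity.dimModulo (Parity.fixedModulo (fun σ : D i => ρ σ) (W i)) (W i) +
          if s then Parity.dimModulo (Parity.fixedModulo (fun σ : D i => ρ (κ σ))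
            (Parity.annih b (W i))) (Parity.annih b (W i)) else 0) + a [MOD 2]

end Pool.Agent.Work.MP_787500_nt.SG
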