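import Mathlib
import Pool.Agent.Work.MP_787500_nt.SH.ShA
import Pool.Agent.Work.MP_787500_nt.SG.FDefs

/-!
The subspace of the induced representation given by subspaces `W i` (fixed, do not change).
-/

set_option autoImplicit false
set_option linter.unusedSectionVars false

namespace Pool.Agent.Work.MP_787500_nt.SG

open Matrix
open Pool.Agent.Work.MP_787500_nt.SH

variable {G : Type*} [Group G] {E : Type*} [NormedField E] {n m : ℕ}
  {A : Type*} [Group A] {Φ : Type*}

/-- the vectors `f` with values in `W i` on `j(A) g i` -/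
def WInd (val : (Fin m → E) →ₗ[E] (G → Fin n → E)) (j : A →* G) (g : Φ → G)
    (W : Φ → Submodule E (Fin n → E)) : Submodule E (Fin m → E) where
  carrier := {f | ∀ i a, val f (j a * g i) ∈ W i}
  add_mem' := fun {f f'} hf hf' i a => by
    rw [map_add, Pi.add_apply]
    exact (W i).add_mem (hf i a) (hf' i a)
  zero_mem' := fun i a => by
    rw [map_zero]
    exact (W i).zero_mem
  smul_mem' := fun c f hf i a => by
    rw [map_smul, Pi.smul_apply]
    exact (W i).smul_mem c (hf i a)

theorem mem_WInd {val : (Fin m → E) →ₗ[E] (G → Fin n → E)} {j : A →* G} {g : Φ → G}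
    {W : Φ → Submodule E (Fin n → E)} {f : Fin m → E} :
    f ∈ WInd val j g W ↔ ∀ i a, val f (j a * g i) ∈ W i := Iff.rfl

end Pool.Agent.Work.MP_787500_nt.SG
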