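import Mathlib
import Pool.Agent.Work.MP_787500_nt.SG.Defs

/-!
# Module SG/Ann (size M): the annihilator of `WInd`

`annih bW (WInd val j g W) = WInd (valK κ val) j g (annih b (W i))`, where `bW` is the sum over the cosets of
`χ (s x) b (val f (s x), val f' (κ (s x)))` for every system of representatives `s` (`IndForm`).
PROOF. `≥`: let `s x` be any representatives (`Quotient.out`), `s x = j t g_i η` (`d.dec`, `i = ix (s x)`). For `f ∈ WInd`,
`val f (s x) = τ η⁻¹ w` with `w = val f (j t g_i) ∈ W i` (`hI.mul_right`), and `valK κ val f' (s x) =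
(τ (κ η))⁻¹ valK κ val f' (j t g_i)` (`(hI.kap hκκ hκH).mul_right`), and `b (τ η⁻¹ w, τ (κ η⁻¹) z) = χ (η⁻¹) b (w, z) = 0`
by `hd`: every term is 0.
`≤`: let `f'` be orthogonal to `WInd`, `i`, `a₀ : A`, `w ∈ W i`. Let `F a = τ (h)⁻¹ w` if `a = j a₀ g_i h` with `h : H`,
and `0` otherwise (see `h4` in the proof of `SH/CondD.comm_of_comm`); it is equivariant, `F = val f` (`hI.surj`), and
`f ∈ WInd`: if `j a g_i'` is in `j a₀ g_i H` then `i' = i` (`d.ixd`, `d.ixh`, `d.ixg`) and `h = g_i⁻¹ j (a₀⁻¹ a) g_i` is in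
the image of `B i` (`d.img`), and `τ h⁻¹` preserves `W i`. Take `s` with `s x₀ = j a₀ g_i` for the coset `x₀` of `j a₀ g_i`
(`Function.update` of `Quotient.out`): the sum has only the term `x₀`, so
`0 = χ (j a₀ g_i) b (w, valK κ val f' (j a₀ g_i))`, and `χ (..) ≠ 0` (`χ (a a⁻¹) = χ 1 = 1`).
-/

set_option autoImplicit false
set_option linter.unusedSectionVars false

namespace Pool.Agent.Work.MP_787500_nt.SG

open Matrix
open Pool.Agent.Work.MP_787500_nt.SH

variable {G : Type*} [Group G] {H : Subgroup G} {E : Type*} [NormedField E] {n m : ℕ}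
  {τ : H →* Matrix (Fin n) (Fin n) E} {R : G →* Matrix (Fin m) (Fin m) E}
  {val : (Fin m → E) →ₗ[E] (G → Fin n → E)}
  {A : Type*} [Group A] {j : A →* G} {Φ : Type*} {B : Φ → Type*} [∀ i, Group (B i)]
  {q : ∀ i, B i →* H} {g : Φ → G} {e : ∀ i, B i →* A} {t : G → A} {ix : G → Φ} {η : G → H}
  {W : Φ → Submodule E (Fin n → E)}

private theorem pair_mul (M N b : Matrix (Fin n) (Fin n) E) (w z : Fin n → E) :
    (M *ᵥ w) ⬝ᵥ (b *ᵥ (N *ᵥ z)) = w ⬝ᵥ ((Mᵀ * b * N) *ᵥ z) := by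
  rw [← mulVec_mulVec, ← mulVec_mulVec, dotProduct_mulVec w Mᵀ, vecMul_transpose]

private theorem exists_supp (hI : IsInd τ R val) (a : G) (v : Fin n → E) :
    ∃ f : Fin m → E, val f a = v ∧ ∀ a' : G, a⁻¹ * a' ∉ H → val f a' = 0 := by
  classical
  let F : G → Fin n → E := fun a' => if h : a⁻¹ * a' ∈ H then τ (⟨a⁻¹ * a', h⟩ : H)⁻¹ *ᵥ v else 0
  have hF : Eqv τ F := by
    intro a' k
    by_cases h5 : a⁻¹ * a' ∈ H
    · have h6 : a⁻¹ * (a' * k) ∈ H := by
        rw [← mul_assoc]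
        exact H.mul_mem h5 k.2
      show τ k *ᵥ (if h : a⁻¹ * (a' * k) ∈ H then τ (⟨a⁻¹ * (a' * k), h⟩ : H)⁻¹ *ᵥ v else 0) =
        if h : a⁻¹ * a' ∈ H then τ (⟨a⁻¹ * a', h⟩ : H)⁻¹ *ᵥ v else 0
      rw [dif_pos h6, dif_pos h5, mulVec_mulVec, ← map_mul]
      have h7 : k * (⟨a⁻¹ * (a' * k), h6⟩ : H)⁻¹ = (⟨a⁻¹ * a', h5⟩ : H)⁻¹ := by
        apply Subtype.ext
        show (k : G) * (a⁻¹ * (a' * k))⁻¹ = (a⁻¹ * a')⁻¹
        group
      rw [h7]
    · have h6 : a⁻¹ * (a' * k) ∉ H := by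
        intro h7
        apply h5
        have h8 := H.mul_mem h7 (H.inv_mem k.2)
        have h9 : a⁻¹ * (a' * k) * (k : G)⁻¹ = a⁻¹ * a' := by group
        rwa [h9] at h8
      show τ k *ᵥ (if h : a⁻¹ * (a' * k) ∈ H then τ (⟨a⁻¹ * (a' * k), h⟩ : H)⁻¹ *ᵥ v else 0) =
        if h : a⁻¹ * a' ∈ H then τ (⟨a⁻¹ * a', h⟩ : H)⁻¹ *ᵥ v else 0
      rw [dif_neg h6, dif_neg h5, mulVec_zero]
  obtain ⟨f, hf⟩ := hI.surj F hF
  refine ⟨f, ?_, fun a' ha' => ?_⟩
  · rw [hf]
    show (if h : a⁻¹ * a ∈ H then τ (⟨a⁻¹ * a, h⟩ : H)⁻¹ *ᵥ v else 0) = v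
    have h5 : a⁻¹ * a ∈ H := by
      rw [inv_mul_cancel]
      exact H.one_mem
    rw [dif_pos h5]
    have h6 : (⟨a⁻¹ * a, h5⟩ : H)⁻¹ = 1 := by
      apply Subtype.ext
      show (a⁻¹ * a)⁻¹ = 1
      group
    rw [h6, map_one, one_mulVec]
  · rw [hf]
    exact dif_neg ha'

theorem annih_WInd (hI : IsInd τ R val) (d : DC j q g e t ix η) [Fintype (G ⧸ H)] {χ : G → E}
    {b : Matrix (Fin n) (Fin n) E} {bW : Matrix (Fin m) (Fin m) E} {κ : G →* G}
    (hκκ : ∀ a, κ (κ a) = a) (hκH : ∀ a ∈ H, κ a ∈ H)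
    (hF : IndForm H χ b bW val (valK κ val)) (hχ1 : χ 1 = 1) (hχ : ∀ a a', χ (a * a') = χ a * χ a')
    (hd : ∀ h : H, (τ h)ᵀ * b * τ (kH κ hκH h) = χ (h : G) • b)
    (hW : ∀ i b, ∀ x ∈ W i, τ (q i b) *ᵥ x ∈ W i) :
    Parity.annih bW (WInd val j g W) = WInd (valK κ val) j g (fun i => Parity.annih b (W i)) := by
  classical
  apply le_antisymm
  · intro f' hf' i a₀ w hw
    obtain ⟨f, hf1, hf2⟩ := exists_supp hI (j a₀ * g i) w
    have hfW : f ∈ WInd val j g W := by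
      intro i' a
      by_cases hh : (j a₀ * g i)⁻¹ * (j a * g i') ∈ H
      · have hp : j a * g i' = (j a₀ * g i) * ((⟨_, hh⟩ : H) : G) := by
          show j a * g i' = (j a₀ * g i) * ((j a₀ * g i)⁻¹ * (j a * g i'))
          group
        have hix : i' = i := by
          have h1 := congrArg ix hp
          rwa [d.ixd, d.ixg, d.ixh, d.ixd, d.ixg] at h1
        subst hix
        rw [hp, hI.mul_right, hf1]
        have hj : j (a₀⁻¹ * a) = g i' * ((⟨_, hh⟩ : H) : G) * (g i')⁻¹ := by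
          show j (a₀⁻¹ * a) = g i' * ((j a₀ * g i')⁻¹ * (j a * g i')) * (g i')⁻¹
          rw [map_mul, map_inv]
          group
        obtain ⟨c, hc⟩ := d.img i' _ _ hj
        rw [← hc, ← map_inv]
        exact hW i' c⁻¹ w hw
      · rw [hf2 _ hh]
        exact (W i').zero_mem
    have h0 := hf' f hfW
    let x₀ : G ⧸ H := ((j a₀ * g i : G) : G ⧸ H)
    have hs : ∀ x : G ⧸ H, ((Function.update (fun x : G ⧸ H => x.out) x₀ (j a₀ * g i) x : G) : G ⧸ H)
        = x := by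
      intro x
      by_cases hx : x = x₀
      · rw [hx, Function.update_self]
      · rw [Function.update_of_ne hx]
        exact QuotientGroup.out_eq' x
    rw [hF _ hs, Finset.sum_eq_single x₀] at h0
    · rw [Function.update_self, hf1] at h0
      refine (mul_eq_zero.1 h0).resolve_left fun hz => ?_
      have h1 := hχ (j a₀ * g i) (j a₀ * g i)⁻¹
      rw [mul_inv_cancel, hχ1, hz, zero_mul] at h1
      exact one_ne_zero h1
    · intro x _ hx
      have h1 : (j a₀ * g i)⁻¹ * (Function.update (fun x : G ⧸ H => x.out) x₀ (j a₀ * g i) x) ∉ H := by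
        intro h2
        apply hx
        rw [← QuotientGroup.eq] at h2
        rw [← hs x]
        exact h2.symm
      rw [hf2 _ h1, zero_dotProduct, mul_zero]
    · intro hx
      exact absurd (Finset.mem_univ _) hx
  · intro f' hf' f hf
    have hK := hI.kap hκκ hκH
    rw [hF (fun x : G ⧸ H => x.out) (fun x => QuotientGroup.out_eq' x)]
    refine Finset.sum_eq_zero fun x _ => ?_
    have h1 := d.dec x.out
    have h2 : val f x.out = τ (η x.out)⁻¹ *ᵥ val f (j (t x.out) * g (ix x.out)) := by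
      conv_lhs => rw [h1]
      exact hI.mul_right f _ _
    have h3 : valK κ val f' x.out =
        τ (kH κ hκH (η x.out)⁻¹) *ᵥ valK κ val f' (j (t x.out) * g (ix x.out)) := by
      conv_lhs => rw [h1]
      exact hK.mul_right f' _ _
    rw [h2, h3, pair_mul, hd, smul_mulVec, dotProduct_smul, hf' (ix x.out) (t x.out) _ (hf _ _),
      smul_zero, mul_zero]

end Pool.Agent.Work.MP_787500_nt.SG
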