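import Mathlib
import Pool.Agent.Work.MP_787500_nt.SG.Defs

/-!
# Module SG/GrS (size M): Shapiro's lemma for coboundaries modulo `WInd`

`y` is a cocycle of `A`; `y a = R (j a) v - v` modulo `WInd` for some `v` if and only if the same holds for all
`shP val g e i y` modulo `W i`.
PROOF. `→`: evaluate at `g i`: `(j (e_i b))⁻¹ g_i = g_i (q b)⁻¹` and `hI.mul_right` (see `SH/ShA.shP_cob`); `v ↦ val v (g i)`.
`←` (see `SH/ShA.cob_of_shP` for the case `W = 0`): let `v i` be given. For `a : A` put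
`Z i a = val (y a⁻¹) (g i) + v i`. (1) For `b : B i`: `Z i (a * e_i b) - τ (q b)⁻¹ (Z i a) ∈ W i`: by the cocycle relation
`y ((e_i b)⁻¹ a⁻¹) = y (e_i b)⁻¹ + R (j (e_i b)⁻¹) y a⁻¹`, `val (R (j (e_i b)⁻¹) y a⁻¹) (g i) = val (y a⁻¹) (j (e_i b) g_i) =
val (y a⁻¹) (g_i q b) = τ (q b)⁻¹ val (y a⁻¹) (g_i)`, and `shP i y b⁻¹ = τ (q b)⁻¹ v_i - v_i` modulo `W i`. (2) Put
`F a = τ (η a)⁻¹ (Z (ix a) (t a))` for `a : G`; it is equivariant (`d.ixh`, `d.eh`, `t (a h) = t a`), so `F = val v`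
(`hI.surj`). (3) For `a : A`: `F (j a g_i) - Z i a ∈ W i`: `j a g_i = j (t ..) g_i η` (`d.dec`, `ix = i`), `η = q u` with
`u : B i` (`d.img`), `a = t .. * e_i u`, and (1). (4) For `a, a' : A`:
`val (y a) (j a' g_i) = val (R (j a'⁻¹) y a) (g_i) = val (y (a'⁻¹ a)) (g_i) - val (y a'⁻¹) (g_i) = Z i (a⁻¹ a') - Z i a'`, and
`val (R (j a) v - v) (j a' g_i) = F (j (a⁻¹ a') g_i) - F (j a' g_i)`; by (3) the difference is in `W i`.
-/

set_option autoImplicit false
set_option linter.unusedSectionVars false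

namespace Pool.Agent.Work.MP_787500_nt.SG

open Matrix
open Pool.Agent.Work.MP_787500_nt.SH

variable {G : Type*} [Group G] {H : Subgroup G} {E : Type*} [NormedField E] {n m : ℕ}
  {τ : H →* Matrix (Fin n) (Fin n) E} {R : G →* Matrix (Fin m) (Fin m) E}
  {val : (Fin m → E) →ₗ[E] (G → Fin n → E)}
  {A : Type*} [Group A] {j : A →* G} {Φ : Type*} {B : Φ → Type*} [∀ i, Group (B i)]
  {q : ∀ i, B i →* H} {g : Φ → G} {e : ∀ i, B i →* A} {t : G → A} {ix : G → Φ} {η : G → H}
  {W : Φ → Submodule E (Fin n → E)}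

theorem gr_sh (hI : IsInd τ R val) (d : DC j q g e t ix η)
    (hW : ∀ i b, ∀ x ∈ W i, τ (q i b) *ᵥ x ∈ W i) {y : A → Fin m → E}
    (hy : ∀ s t, y (s * t) = y s + R (j s) *ᵥ y t) :
    (∃ v, ∀ a, y a - (R (j a) *ᵥ v - v) ∈ WInd val j g W) ↔
      ∀ i, ∃ v, ∀ b, shP val g e i y b - (τ (q i b) *ᵥ v - v) ∈ W i := by
  constructor
  · rintro ⟨v, hv⟩ i
    refine ⟨val v (g i), fun b => ?_⟩
    have h0 := hv (e i b) i 1
    have h1 : (j (e i b))⁻¹ * g i = g i * ((q i b)⁻¹ : H) := by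
      rw [d.je, Subgroup.coe_inv]
      group
    rw [map_one, one_mul, map_sub, map_sub, Pi.sub_apply, Pi.sub_apply, hI.act, h1, hI.mul_right,
      inv_inv] at h0
    exact h0
  · intro h
    choose v hv using h
    set Z : Φ → A → Fin n → E := fun i a => val (y a⁻¹) (g i) + v i with hZ
    have hZ1 : ∀ i (a : A) (b : B i), Z i (a * e i b) - τ (q i b)⁻¹ *ᵥ Z i a ∈ W i := by
      intro i a b
      have h1 := hv i b⁻¹
      have h2 : (j (e i b)⁻¹)⁻¹ * g i = g i * (q i b : H) := by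
        rw [map_inv, inv_inv, d.je]
        group
      have h3 : Z i (a * e i b) - τ (q i b)⁻¹ *ᵥ Z i a =
          shP val g e i y b⁻¹ - (τ (q i b⁻¹) *ᵥ v i - v i) := by
        show val (y (a * e i b)⁻¹) (g i) + v i - τ (q i b)⁻¹ *ᵥ (val (y a⁻¹) (g i) + v i) =
          val (y (e i b⁻¹)) (g i) - (τ (q i b⁻¹) *ᵥ v i - v i)
        rw [_root_.mul_inv_rev, hy, map_add, Pi.add_apply, hI.act, h2, hI.mul_right, mulVec_add,
          map_inv (e i), map_inv (q i)]
        abel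
      rw [h3]
      exact h1
    have htm : ∀ (a : G) (h : H), t (a * h) = t a := by
      intro a h
      apply d.jinj
      have h1 := d.dec (a * h)
      have h2 := d.dec a
      rw [d.ixh, d.eh, Subgroup.coe_mul, ← mul_assoc] at h1
      have h3 := mul_right_cancel h1
      have h4 := h2.symm.trans h3
      exact (mul_right_cancel (mul_right_cancel h4)).symm
    have hE : Eqv τ (fun a => τ (η a)⁻¹ *ᵥ Z (ix a) (t a)) := by
      intro a h
      show τ h *ᵥ (τ (η (a * h))⁻¹ *ᵥ Z (ix (a * h)) (t (a * h))) = _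
      rw [d.eh, d.ixh, htm, mulVec_mulVec, ← map_mul, _root_.mul_inv_rev, mul_inv_cancel_left]
    obtain ⟨f, hf⟩ := hI.surj _ hE
    have hF : ∀ i (a : A), val f (j a * g i) - Z i a ∈ W i := by
      intro i a
      have h1 : ix (j a * g i) = i := by rw [d.ixd, d.ixg]
      have h2 := d.dec (j a * g i)
      rw [h1] at h2
      have h3 : j ((t (j a * g i))⁻¹ * a) = g i * (η (j a * g i) : H) * (g i)⁻¹ := by
        rw [map_mul, map_inv, inv_mul_eq_iff_eq_mul, ← mul_assoc, ← mul_assoc, ← h2]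
        group
      obtain ⟨b, hb⟩ := d.img i _ _ h3
      have h4 : a = t (j a * g i) * e i b := by
        apply d.jinj
        rw [map_mul, d.je, hb, ← h3, ← map_mul, mul_inv_cancel_left]
      have h5 : val f (j a * g i) = τ (q i b)⁻¹ *ᵥ Z i (t (j a * g i)) := by
        rw [hf]
        show τ (η (j a * g i))⁻¹ *ᵥ Z (ix (j a * g i)) (t (j a * g i)) = _
        rw [h1, hb]
      have h6 := hZ1 i (t (j a * g i)) b
      rw [← h4, ← h5] at h6
      have h7 := (W i).neg_mem h6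
      rwa [neg_sub] at h7
    refine ⟨f, fun a i a' => ?_⟩
    have h1 : val (y a) (j a' * g i) = Z i (a⁻¹ * a') - Z i a' := by
      have h2 := hy a'⁻¹ a
      have h3 := congrArg (fun w => val w (g i)) h2
      simp only [map_add, Pi.add_apply, hI.act, map_inv, inv_inv] at h3
      show _ = val (y (a⁻¹ * a')⁻¹) (g i) + v i - (val (y a'⁻¹) (g i) + v i)
      rw [_root_.mul_inv_rev, inv_inv, h3]
      abel
    have h4 : (j a)⁻¹ * (j a' * g i) = j (a⁻¹ * a') * g i := by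
      rw [map_mul, map_inv, mul_assoc]
    have h5 : val (y a - (R (j a) *ᵥ f - f)) (j a' * g i) =
        (val f (j a' * g i) - Z i a') - (val f (j (a⁻¹ * a') * g i) - Z i (a⁻¹ * a')) := by
      rw [map_sub, map_sub, Pi.sub_apply, Pi.sub_apply, hI.act, h4, h1]
      abel
    rw [h5]
    exact (W i).sub_mem (hF i a') (hF i (a⁻¹ * a'))

end Pool.Agent.Work.MP_787500_nt.SG
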