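import Mathlib
import Pool.Agent.Work.MP_787500_nt.SG.Defs
import Pool.Agent.Work.MP_787500_nt.QX.FDefs

/-!
# Module SG/WFix (size M): the vectors of the quotient by `WInd` that are fixed by `A`

PROOF (very similar to `SH/MackR.fixMod_dc`, copy it). `wind_st`: `val (R (j a') f) (j a g_i) = val f (j (a'⁻¹ a) g_i)`.
The map `φ : f ↦ (val f (g i) mod W i)_i` from the vectors fixed modulo `WInd` to the product of the quotients
`fixedModulo (τ on B i) (W i) ⧸ W i`:
* defined: `val (R (e_i b) f - f) (g i) = τ (q b) (val f (g i)) - val f (g i)` (`(j (e_i b))⁻¹ g_i = g_i (q b)⁻¹`);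
* kernel `WInd`: `val f (j a g_i) = val (R (j a⁻¹) f) (g_i) = val f (g_i) + val (R (j a⁻¹) f - f) (g_i) ∈ W i`;
* surjective: given `v i`, put `F a = τ (η a)⁻¹ (v (ix a))` (equivariant: `d.eh`, `d.ixh`), `f` with `val f = F`
  (`hI.surj`), `val f (g i) = v i` (`d.eg`, `d.ixg`); for `a : A`, `F (j a g_i) - v i ∈ W i`: `η (j a g_i) = q u` for
  some `u : B i` (`DC.mem`/`d.dec`/`d.img`), and `v i` is fixed modulo `W i` by `u⁻¹`; so
  `val (R (j s) f - f) (j a g_i) = F (j (s⁻¹ a) g_i) - F (j a g_i) ∈ W i`.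
Dimensions: `LinearMap.finrank_range_add_finrank_ker` in the form of the lemma `dim_pi` of `SH/MackR` (private there, copy
it); `dimModulo M B = finrank (M ⧸ B.submoduleOf M)`, and `dimModulo M B + finrank B = finrank M` for `B ≤ M` (see
`OV/Conj.dimModulo_eq`).
-/

set_option autoImplicit false
set_option linter.unusedSectionVars false

namespace Pool.Agent.Work.MP_787500_nt.SG

open Matrix
open Pool.Agent.Work.MP_787500_nt.SH

variable {G : Type*} [Group G] {H : Subgroup G} {E : Type*} [NormedField E] {n m : ℕ}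
  {τ : H →* Matrix (Fin n) (Fin n) E} {R : G →* Matrix (Fin m) (Fin m) E}
  {val : (Fin m → E) →ₗ[E] (G → Fin n → E)}
  {A : Type*} [Group A] {j : A →* G} {Φ : Type*} {B : Φ → Type*} [∀ i, Group (B i)]
  {q : ∀ i, B i →* H} {g : Φ → G} {e : ∀ i, B i →* A} {t : G → A} {ix : G → Φ} {η : G → H}
  {W : Φ → Submodule E (Fin n → E)}

theorem wind_st (hI : IsInd τ R val) (a : A) {f : Fin m → E} (hf : f ∈ WInd val j g W) :
    R (j a) *ᵥ f ∈ WInd val j g W := by
  rw [mem_WInd] at hf ⊢
  intro i a'
  have h1 : (j a)⁻¹ * (j a' * g i) = j (a⁻¹ * a') * g i := by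
    rw [map_mul, map_inv, mul_assoc]
  rw [hI.act, h1]
  exact hf i _

private theorem dim_pi {V : Type*} [AddCommGroup V] [Module E V] [FiniteDimensional E V]
    {Φ : Type*} [Fintype Φ] {W : Φ → Type*} [∀ i, AddCommGroup (W i)] [∀ i, Module E (W i)]
    [∀ i, FiniteDimensional E (W i)] (φ : V →ₗ[E] ∀ i, W i) (hs : Function.Surjective φ) :
    (∑ i, Module.finrank E (W i)) + Module.finrank E (LinearMap.ker φ) = Module.finrank E V := by
  have h1 := LinearMap.finrank_range_add_finrank_ker φ
  rwa [LinearMap.range_eq_top.2 hs, finrank_top, Module.finrank_pi_fintype] at h1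

theorem dim_fixW (hI : IsInd τ R val) (d : DC j q g e t ix η) [Fintype Φ]
    (hW : ∀ i b, ∀ x ∈ W i, τ (q i b) *ᵥ x ∈ W i) :
    Parity.dimModulo (Parity.fixedModulo (fun a : A => R (j a)) (WInd val j g W)) (WInd val j g W) =
      ∑ i, Parity.dimModulo (Parity.fixedModulo (fun b : B i => τ (q i b)) (W i)) (W i) := by
  classical
  have hfm : ∀ f : Fin m → E, f ∈ Parity.fixedModulo (fun a : A => R (j a)) (WInd val j g W) →
      ∀ (s : A) (i : Φ) (a : A), val f ((j s)⁻¹ * (j a * g i)) - val f (j a * g i) ∈ W i := by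
    intro f hf s i a
    have h1 := (mem_WInd.1 (hf s)) i a
    rw [map_sub, Pi.sub_apply, hI.act] at h1
    exact h1
  have hmem : ∀ f : Fin m → E, f ∈ Parity.fixedModulo (fun a : A => R (j a)) (WInd val j g W) →
      ∀ i, val f (g i) ∈ Parity.fixedModulo (fun b : B i => τ (q i b)) (W i) := by
    intro f hf i b
    have h1 := hfm f hf (e i b) i 1
    have h2 : (j (e i b))⁻¹ * g i = g i * (((q i b)⁻¹ : H) : G) := by
      rw [d.je, Subgroup.coe_inv]
      group
    rwa [map_one, one_mul, h2, hI.mul_right, inv_inv] at h1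
  let φ : Parity.fixedModulo (fun a : A => R (j a)) (WInd val j g W) →ₗ[E]
      ∀ i, (Parity.fixedModulo (fun b : B i => τ (q i b)) (W i)) ⧸
        (W i).submoduleOf (Parity.fixedModulo (fun b : B i => τ (q i b)) (W i)) :=
    LinearMap.pi fun i => (Submodule.mkQ _).comp
      ((((LinearMap.proj (R := E) (φ := fun _ : G => Fin n → E) (g i)).comp
      val).comp (Submodule.subtype _)).codRestrict _ (fun f => hmem f.1 f.2 i))
  have hφ : ∀ f i, φ f i = Submodule.Quotient.mk ⟨val f.1 (g i), hmem f.1 f.2 i⟩ := fun f i => rfl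
  have hker : LinearMap.ker φ = (WInd val j g W).submoduleOf
      (Parity.fixedModulo (fun a : A => R (j a)) (WInd val j g W)) := by
    ext f
    have e1 : f ∈ (WInd val j g W).submoduleOf
      (Parity.fixedModulo (fun a : A => R (j a)) (WInd val j g W)) ↔
        f.1 ∈ WInd val j g W := Iff.rfl
    rw [LinearMap.mem_ker, e1, mem_WInd]
    constructor
    · intro h0 i a
      have h2 := congrFun h0 i
      rw [hφ, Pi.zero_apply, Submodule.Quotient.mk_eq_zero] at h2
      have h3 : val f.1 (g i) ∈ W i := h2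
      have h4 := hfm f.1 f.2 a⁻¹ i 1
      rw [map_inv, inv_inv, map_one, one_mul] at h4
      have h5 := (W i).add_mem h4 h3
      rw [sub_add_cancel] at h5
      exact h5
    · intro h0
      funext i
      rw [hφ, Pi.zero_apply, Submodule.Quotient.mk_eq_zero]
      have h1 := h0 i 1
      rw [map_one, one_mul] at h1
      exact h1
  have hsurj : Function.Surjective φ := by
    intro w
    choose v hv using fun i => Submodule.Quotient.mk_surjective _ (w i)
    let F : G → Fin n → E := fun a => τ (η a)⁻¹ *ᵥ (v (ix a)).1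
    have hE : Eqv τ F := by
      intro a h
      show τ h *ᵥ (τ (η (a * h))⁻¹ *ᵥ (v (ix (a * h))).1) = τ (η a)⁻¹ *ᵥ (v (ix a)).1
      rw [d.eh, d.ixh, mulVec_mulVec, ← map_mul]
      congr 2
      group
    obtain ⟨f, hf⟩ := hI.surj F hE
    have hclaim : ∀ (a : A) (i : Φ), F (j a * g i) - (v i).1 ∈ W i := by
      intro a i
      show τ (η (j a * g i))⁻¹ *ᵥ (v (ix (j a * g i))).1 - (v i).1 ∈ W i
      have h1 : ix (j a * g i) = i := by rw [d.ixd, d.ixg]
      have h2 := d.dec (j a * g i)
      rw [h1] at h2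
      rw [h1]
      have h3 : j ((t (j a * g i))⁻¹ * a) = g i * (η (j a * g i) : G) * (g i)⁻¹ := by
        rw [map_mul, map_inv, inv_mul_eq_iff_eq_mul]
        have h4 : j a = j (t (j a * g i)) * g i * (η (j a * g i) : G) * (g i)⁻¹ := by
          rw [← h2, mul_inv_cancel_right]
        rw [← mul_assoc, ← mul_assoc]
        exact h4
      obtain ⟨b, hb⟩ := d.img i _ _ h3
      rw [← hb, ← map_inv]
      exact (v i).2 b⁻¹
    have hfF : f ∈ Parity.fixedModulo (fun a : A => R (j a)) (WInd val j g W) := by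
      intro s
      rw [mem_WInd]
      intro i a
      rw [map_sub, Pi.sub_apply, hI.act, hf]
      have h1 : (j s)⁻¹ * (j a * g i) = j (s⁻¹ * a) * g i := by
        rw [map_mul, map_inv, mul_assoc]
      rw [h1]
      have h2 := (W i).sub_mem (hclaim (s⁻¹ * a) i) (hclaim a i)
      rw [sub_sub_sub_cancel_right] at h2
      exact h2
    refine ⟨⟨f, hfF⟩, funext fun i => ?_⟩
    rw [hφ, ← hv i]
    congr 1
    apply Subtype.ext
    show val f (g i) = (v i).1
    rw [hf]
    show τ (η (g i))⁻¹ *ᵥ (v (ix (g i))).1 = (v i).1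
    rw [d.eg, d.ixg, inv_one, map_one, one_mulVec]
  have h1 := dim_pi (E := E) (W := fun i => (Parity.fixedModulo (fun b : B i => τ (q i b)) (W i)) ⧸
    (W i).submoduleOf (Parity.fixedModulo (fun b : B i => τ (q i b)) (W i))) φ hsurj
  have h2 := Submodule.finrank_quotient_add_finrank ((WInd val j g W).submoduleOf
      (Parity.fixedModulo (fun a : A => R (j a)) (WInd val j g W)))
  rw [hker] at h1
  have h3 := h2.trans h1.symm
  exact Nat.add_right_cancel h3

end Pool.Agent.Work.MP_787500_nt.SG
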