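import Mathlib
import Pool.Agent.Work.MP_787500_nt.SG.Defs

/-!
# Module SG/Wdim (size M): the dimension of `WInd`

The cosets of `H` in the double coset `A g_i H` are the `g_i k H`, `k` in `A' i` modulo `A' i ∩ H`.
PROOF. Let `Ψ = Σ i, A' i ⧸ H.subgroupOf (A' i)` (finite: `H` has finite index, see the proof of `SH/MackI.fix_cs`,
which is very similar and can be copied), `x (i, k) = g i * k.out`. Every `a : G` is `x k * h` with `h : H` for exactly
one `k : Ψ` (`hg`: `a = d g_i h`, `g_i⁻¹ d g_i ∈ A' i`). The map `f ↦ (val f (x k))_k` is a linear bijection from `WInd`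
to `Π k, W k.1`: it is defined because `x (i, k) = (g_i k g_i⁻¹) g_i`; injective because `val f (x h) = τ h⁻¹ val f x`;
surjective: for `w` put `F (x k * h) = τ h⁻¹ *ᵥ w k` (choose `k` and `h`), equivariant, `hI.surj`; `F (d g_i) ∈ W i`:
`d g_i = g_i k'` with `k' = g_i⁻¹ d g_i ∈ A' i`, `k' = k.out * h` with `h ∈ A' i ∩ H`, and `τ h⁻¹` preserves `W i`
(`hW`). So the dimension is `∑ k, finrank (W k.1)` (`LinearEquiv.ofBijective`, `Module.finrank_pi_fintype`,
`Fintype.sum_sigma`), and the number of `k` is `(H.subgroupOf (A' i)).index = H.relIndex (A' i)`.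
-/

set_option autoImplicit false
set_option linter.unusedSectionVars false

namespace Pool.Agent.Work.MP_787500_nt.SG

open Matrix
open Pool.Agent.Work.MP_787500_nt.SH

variable {G : Type*} [Group G] {H : Subgroup G} {E : Type*} [NormedField E] {n m : ℕ}
  {τ : H →* Matrix (Fin n) (Fin n) E} {R : G →* Matrix (Fin m) (Fin m) E}
  {val : (Fin m → E) →ₗ[E] (G → Fin n → E)}

private theorem wcs_ex [Finite (G ⧸ H)] {A : Subgroup G} {Φ : Type*} [Fintype Φ]
    {g : Φ → G} {A' : Φ → Subgroup G} (hA : ∀ i a, a ∈ A' i ↔ g i * a * (g i)⁻¹ ∈ A)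
    (hg : ∀ a : G, ∃! i, ∃ (d : A) (h : H), a = d * g i * h) (a : G) :
    ∃! k : (Σ i, A' i ⧸ H.subgroupOf (A' i)), ∃ h : H, a = g k.1 * ((k.2.out : A' k.1) : G) * h := by
  obtain ⟨i, ⟨⟨σ, hσ⟩, h, ha⟩, hu⟩ := hg a
  change a = σ * g i * h at ha
  have ha' : (g i)⁻¹ * σ * g i ∈ A' i := by
    rw [hA]
    have h1 : g i * ((g i)⁻¹ * σ * g i) * (g i)⁻¹ = σ := by group
    rwa [h1]
  refine ⟨⟨i, ((⟨_, ha'⟩ : A' i) : A' i ⧸ H.subgroupOf (A' i))⟩, ?_, ?_⟩
  · show ∃ h' : H, a = g i * ((((⟨_, ha'⟩ : A' i) : A' i ⧸ H.subgroupOf (A' i)).out : A' i) : G) * h'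
    obtain ⟨y, hy⟩ : ∃ y : A' i, y = ((⟨_, ha'⟩ : A' i) : A' i ⧸ H.subgroupOf (A' i)).out := ⟨_, rfl⟩
    have h2 : (y : A' i ⧸ H.subgroupOf (A' i)) = (⟨_, ha'⟩ : A' i) := by
      rw [hy]
      exact QuotientGroup.out_eq' _
    rw [← hy]
    have h3 : (y : G)⁻¹ * ((g i)⁻¹ * σ * g i) ∈ H := by
      have h6 := QuotientGroup.eq.1 h2
      exact h6
    refine ⟨⟨_, H.mul_mem h3 h.2⟩, ?_⟩
    rw [ha]
    show σ * g i * h = g i * y * ((y : G)⁻¹ * ((g i)⁻¹ * σ * g i) * h)
    group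
  · rintro ⟨j, k⟩ ⟨h', h2⟩
    obtain ⟨y, hy⟩ : ∃ y : A' j, y = k.out := ⟨_, rfl⟩
    have hk : (y : A' j ⧸ H.subgroupOf (A' j)) = k := by
      rw [hy]
      exact QuotientGroup.out_eq' k
    have h2' : a = g j * y * h' := by
      rw [hy]
      exact h2
    have hyA : g j * y * (g j)⁻¹ ∈ A := (hA j _).1 y.2
    obtain rfl : j = i := hu j ⟨⟨_, hyA⟩, h', by
      show a = g j * y * (g j)⁻¹ * g j * h'
      rw [h2']
      group⟩
    have h3 : k = ((⟨_, ha'⟩ : A' j) : A' j ⧸ H.subgroupOf (A' j)) := by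
      rw [← hk, QuotientGroup.eq]
      show (y : G)⁻¹ * ((g j)⁻¹ * σ * g j) ∈ H
      have h4 : (y : G)⁻¹ * ((g j)⁻¹ * σ * g j) = h' * (h : G)⁻¹ := by
        have h5 : σ * g j * h = g j * y * h' := by rw [← ha, ← h2']
        calc (y : G)⁻¹ * ((g j)⁻¹ * σ * g j) = (y : G)⁻¹ * (g j)⁻¹ * (σ * g j * h) * (h : G)⁻¹ := by
              group
          _ = h' * (h : G)⁻¹ := by
              rw [h5]
              group
      rw [h4]
      exact H.mul_mem h'.2 (H.inv_mem h.2)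
    rw [h3]

theorem finrank_WInd (hI : IsInd τ R val) [Finite (G ⧸ H)] {A : Subgroup G} {Φ : Type*} [Fintype Φ]
    {g : Φ → G} {A' : Φ → Subgroup G} (hA : ∀ i a, a ∈ A' i ↔ g i * a * (g i)⁻¹ ∈ A)
    (hg : ∀ a : G, ∃! i, ∃ (d : A) (h : H), a = d * g i * h) {W : Φ → Submodule E (Fin n → E)}
    (hW : ∀ i, ∀ h : H, (h : G) ∈ A' i → ∀ x ∈ W i, τ h *ᵥ x ∈ W i) :
    Module.finrank E (WInd val A.subtype g W) = ∑ i, H.relIndex (A' i) * Module.finrank E (W i) := by
  classical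
  have hfinA : ∀ i, Finite (A' i ⧸ H.subgroupOf (A' i)) := by
    intro i
    have h1 : H.FiniteIndex := Subgroup.finiteIndex_of_finite_quotient
    have h2 : (H.subgroupOf (A' i)).FiniteIndex := inferInstance
    infer_instance
  let _ : ∀ i, Fintype (A' i ⧸ H.subgroupOf (A' i)) := fun i => Fintype.ofFinite _
  let Ψ := Σ i, A' i ⧸ H.subgroupOf (A' i)
  let x : Ψ → G := fun k => g k.1 * ((k.2.out : A' k.1) : G)
  have hx : ∀ a : G, ∃! k : Ψ, ∃ h : H, a = x k * h := fun a => wcs_ex hA hg a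
  choose kk hkk hku using hx
  choose hh hhh using hkk
  have hkk_mul : ∀ a (h : H), kk (a * h) = kk a := by
    intro a h
    symm
    refine hku (a * h) (kk a) ⟨hh a * h, ?_⟩
    rw [Subgroup.coe_mul, ← mul_assoc, ← hhh a]
  have hkk_x : ∀ k, kk (x k) = k := fun k => (hku (x k) k ⟨1, by simp⟩).symm
  have hhh_mul : ∀ a (h : H), hh (a * h) = hh a * h := by
    intro a h
    have h1 := hhh (a * h)
    rw [hkk_mul] at h1
    apply Subtype.ext
    have h2 : x (kk a) * (hh (a * h) : G) = x (kk a) * ((hh a * h : H) : G) := by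
      rw [← h1, Subgroup.coe_mul, ← mul_assoc, ← hhh a]
    exact mul_left_cancel h2
  have hhh_x : ∀ k, hh (x k) = 1 := by
    intro k
    have h1 := hhh (x k)
    rw [hkk_x] at h1
    apply Subtype.ext
    exact mul_left_cancel (h1.symm.trans (mul_one _).symm)
  -- membership
  have hmem : ∀ f ∈ WInd val A.subtype g W, ∀ k : Ψ, val f (x k) ∈ W k.1 := by
    rintro f hf ⟨i, k⟩
    have h1 := (mem_WInd.1 hf) i ⟨g i * ((k.out : A' i) : G) * (g i)⁻¹, (hA i _).1 (k.out : A' i).2⟩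
    have h2 : A.subtype ⟨g i * ((k.out : A' i) : G) * (g i)⁻¹, (hA i _).1 (k.out : A' i).2⟩ * g i =
        x ⟨i, k⟩ := by
      show g i * ((k.out : A' i) : G) * (g i)⁻¹ * g i = g i * ((k.out : A' i) : G)
      group
    rw [h2] at h1
    exact h1
  let φ : WInd val A.subtype g W →ₗ[E] ∀ k : Ψ, W k.1 :=
    LinearMap.pi fun k => (((LinearMap.proj (R := E) (φ := fun _ : G => Fin n → E) (x k)).comp
      val).comp (Submodule.subtype _)).codRestrict _ (fun f => hmem f.1 f.2 k)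
  have hφ : ∀ f k, ((φ f k : W k.1) : Fin n → E) = val f.1 (x k) := fun f k => rfl
  have hinj : Function.Injective φ := by
    intro f f' hff
    apply Subtype.ext
    refine hI.emb.injective (funext fun a => ?_)
    have h1 := congrArg (fun w : ∀ k : Ψ, W k.1 => ((w (kk a) : W (kk a).1) : Fin n → E)) hff
    simp only [hφ] at h1
    rw [hhh a, hI.mul_right, hI.mul_right, h1]
  have hsurj : Function.Surjective φ := by
    intro w
    let F : G → Fin n → E := fun a => τ (hh a)⁻¹ *ᵥ ((w (kk a) : W (kk a).1) : Fin n → E)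
    have hE : Eqv τ F := by
      intro a h
      show τ h *ᵥ (τ (hh (a * h))⁻¹ *ᵥ ((w (kk (a * h)) : W (kk (a * h)).1) : Fin n → E)) =
        τ (hh a)⁻¹ *ᵥ ((w (kk a) : W (kk a).1) : Fin n → E)
      rw [hhh_mul, hkk_mul, mulVec_mulVec, ← map_mul]
      congr 2
      group
    obtain ⟨f, hf⟩ := hI.surj F hE
    have hfW : f ∈ WInd val A.subtype g W := by
      rw [mem_WInd]
      intro i d
      rw [hf]
      show τ (hh ((d : G) * g i))⁻¹ *ᵥ ((w (kk ((d : G) * g i)) : W _) : Fin n → E) ∈ W i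
      have h1 := hhh ((d : G) * g i)
      obtain ⟨⟨i', k⟩, hk⟩ : ∃ k0 : Ψ, kk ((d : G) * g i) = k0 := ⟨_, rfl⟩
      obtain ⟨i0, h0, hu⟩ := hg ((d : G) * g i)
      have e1 : i = i0 := hu i ⟨d, 1, by simp⟩
      have e2 : i' = i0 := by
        refine hu i' ⟨⟨g i' * ((k.out : A' i') : G) * (g i')⁻¹, (hA i' _).1 (k.out : A' i').2⟩,
          hh ((d : G) * g i), ?_⟩
        rw [hk] at h1
        show (d : G) * g i = g i' * ((k.out : A' i') : G) * (g i')⁻¹ * g i' * hh ((d : G) * g i)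
        rw [inv_mul_cancel_right]
        exact h1
      have e3 : i' = i := e2.trans e1.symm
      subst e3
      have h2 : ((w (kk ((d : G) * g i')) : W (kk ((d : G) * g i')).1) : Fin n → E) =
          ((w ⟨i', k⟩ : W i') : Fin n → E) := by
        rw [hk]
      rw [h2]
      refine hW i' _ ?_ _ (w ⟨i', k⟩).2
      rw [hk] at h1
      change (d : G) * g i' = g i' * ((k.out : A' i') : G) * (hh ((d : G) * g i') : G) at h1
      rw [Subgroup.coe_inv]
      refine (A' i').inv_mem ?_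
      have h3 : ∀ u : G, (d : G) * g i' = g i' * ((k.out : A' i') : G) * u →
          u = ((k.out : A' i') : G)⁻¹ * ((g i')⁻¹ * (d : G) * g i') := by
        intro u hu'
        rw [mul_assoc (g i')⁻¹, hu']
        group
      rw [h3 _ h1]
      refine (A' i').mul_mem ((A' i').inv_mem (k.out : A' i').2) ?_
      rw [hA]
      have h4 : g i' * ((g i')⁻¹ * (d : G) * g i') * (g i')⁻¹ = d := by group
      rw [h4]
      exact d.2
    refine ⟨⟨f, hfW⟩, funext fun k => Subtype.ext ?_⟩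
    rw [hφ]
    show val f (x k) = _
    rw [hf]
    show τ (hh (x k))⁻¹ *ᵥ ((w (kk (x k)) : W (kk (x k)).1) : Fin n → E) = _
    rw [hhh_x, hkk_x, inv_one, map_one, one_mulVec]
  rw [(LinearEquiv.ofBijective φ ⟨hinj, hsurj⟩).finrank_eq, Module.finrank_pi_fintype,
    Fintype.sum_sigma]
  refine Finset.sum_congr rfl fun i _ => ?_
  show ∑ _k : A' i ⧸ H.subgroupOf (A' i), Module.finrank E (W i) = _
  rw [Finset.sum_const, smul_eq_mul, Finset.card_univ]
  congr 1
  rw [← Nat.card_eq_fintype_card]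
  rfl

end Pool.Agent.Work.MP_787500_nt.SG
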