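import Mathlib
import Pool.Agent.Work.MP_787500_nt.SG.GrS
import Pool.Agent.Work.MP_787500_nt.SG.Ann
import Pool.Agent.Work.MP_787500_nt.SG.Wdim
import Pool.Agent.Work.MP_787500_nt.SG.WFix
import Pool.Agent.Work.MP_787500_nt.SH.ShB
import Pool.Agent.Work.MP_787500_nt.SH.Iner
import Pool.Agent.Work.MP_787500_nt.SH.ExDC

/-!
The ordinary Selmer space of the induced representation, and the parity formula over `H` from the parity formula for
the induced representation.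
-/

set_option autoImplicit false
set_option linter.unusedSectionVars false

namespace Pool.Agent.Work.MP_787500_nt.SG

open Matrix
open Pool.Agent.Work.MP_787500_nt.SH

variable {G : Type*} [Group G] [TopologicalSpace G] [IsTopologicalGroup G] {H : Subgroup G}
  [Fintype (G ⧸ H)] {E : Type*} [NormedField E] {n m : ℕ}
  {τ : H →* Matrix (Fin n) (Fin n) E} {R : G →* Matrix (Fin m) (Fin m) E}
  {V : (Fin m → E) →ₗ[E] (G → Fin n → E)} {χ : G → E} {b : Matrix (Fin n) (Fin n) E}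
  {bW : Matrix (Fin m) (Fin m) E} {κ : G →* G}
  {A A' : Subgroup G} {Φ : Type*} [Fintype Φ] {D : Φ → Subgroup H} {g : Φ → G}
  {e : ∀ i, D i →* A} {t : G → A} {ix : G → Φ} {η : G → H}
  {t₀ : G → G} {ix₀ : G → Unit} {η₀ : G → H} {W : Φ → Submodule E (Fin n → E)}

/-- adding a coboundary -/
private theorem add_cob {S : Type*} {B : S → Matrix (Fin n) (Fin n) E} {M : Submodule E (Fin n → E)}
    {y z : S → Fin n → E} {w : Fin n → E} (h : ∀ s, z s = y s + (B s *ᵥ w - w)) :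
    (∃ v, ∀ s, z s - (B s *ᵥ v - v) ∈ M) ↔ ∃ v, ∀ s, y s - (B s *ᵥ v - v) ∈ M := by
  constructor
  · rintro ⟨v, hv⟩
    refine ⟨v - w, fun s => ?_⟩
    have h1 : y s - (B s *ᵥ (v - w) - (v - w)) = z s - (B s *ᵥ v - v) := by
      rw [h, mulVec_sub]
      abel
    rw [h1]
    exact hv s
  · rintro ⟨v, hv⟩
    refine ⟨v + w, fun s => ?_⟩
    have h1 : z s - (B s *ᵥ (v + w) - (v + w)) = y s - (B s *ᵥ v - v) := by
      rw [h, mulVec_add]
      abel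
    rw [h1]
    exact hv s

theorem key (hκκ : ∀ a, κ (κ a) = a) (hκH : ∀ a ∈ H, κ a ∈ H)
    (hI : IsInd τ R V) (hF : IndForm H χ b bW V (valK κ V)) (hχ1 : χ 1 = 1)
    (hχ : ∀ a a', χ (a * a') = χ a * χ a')
    (hdτ : ∀ h : H, (τ h)ᵀ * b * τ (kH κ hκH h) = χ h • b)
    {𝓘 : Set (Subgroup G)}
    (hconj : ∀ I ∈ 𝓘, ∀ a : G, I.comap (MulAut.conj a).toMonoidHom ∈ 𝓘)
    (hA' : ∀ a, a ∈ A' ↔ κ a ∈ A)
    (hee : ∀ i (x : D i), (e i x : G) = g i * ((x : H) : G) * (g i)⁻¹)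
    (d : DC A.subtype (fun i => (D i).subtype) g e t ix η)
    (d₀ : DC (MonoidHom.id G) (fun _ : Unit => MonoidHom.id H) (fun _ => (1 : G))
      (fun _ => H.subtype) t₀ ix₀ η₀)
    (dt₀ : DCT (MonoidHom.id G) (fun _ : Unit => MonoidHom.id H) (fun _ => H.subtype) η₀)
    (hW : ∀ i, ∀ σ : D i, ∀ x ∈ W i, τ (σ : H) *ᵥ x ∈ W i) :
    Parity.selmerTwo 𝓘 R A A' (WInd V A.subtype g W) (Parity.annih bW (WInd V A.subtype g W)) =
      LW (fun a : G => R a) V (fun _ : Unit => (1 : G)) (fun _ : Unit => H.subtype)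
        (fun _ : Unit => selOrdFam {I | ∃ J ∈ 𝓘, I = J.subgroupOf H} (kH κ hκH) τ b D W) := by
  have hI' : IsInd (τ.comp (kH κ hκH)) (R.comp κ) (valK κ V) := hI.kap hκκ hκH
  have hann := annih_WInd hI d hκκ hκH hF hχ1 hχ hdτ (fun i σ x hx => hW i σ x hx)
  -- the annihilators are stable for `τ ∘ κ`
  have hdd : ∀ (h : H) (x y : Fin n → E),
      (τ h *ᵥ x) ⬝ᵥ (b *ᵥ (τ (kH κ hκH h) *ᵥ y)) = χ h * (x ⬝ᵥ (b *ᵥ y)) := by
    intro h x y
    rw [← vecMul_transpose, ← dotProduct_mulVec, mulVec_mulVec, mulVec_mulVec, hdτ, smul_mulVec,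
      dotProduct_smul, smul_eq_mul]
  have hWa : ∀ i, ∀ σ : D i, ∀ x ∈ Parity.annih b (W i),
      (τ.comp (kH κ hκH)) ((D i).subtype σ) *ᵥ x ∈ Parity.annih b (W i) := by
    intro i σ x hx w hw
    have h1 := hx _ (hW i σ⁻¹ w hw)
    have h2 := hdd (σ : H) (τ ((σ⁻¹ : D i) : H) *ᵥ w) x
    have h3 : τ (σ : H) *ᵥ (τ ((σ⁻¹ : D i) : H) *ᵥ w) = w := by
      rw [mulVec_mulVec, ← map_mul]
      show τ ((σ : H) * (σ : H)⁻¹) *ᵥ w = w
      rw [mul_inv_cancel, map_one, one_mulVec]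
    rw [h3, h1, mul_zero] at h2
    exact h2
  have hA1 : ∀ {y : G → Fin m → E}, Parity.IsCocycle R y →
      ((∃ v, ∀ σ ∈ A, y σ - (R σ *ᵥ v - v) ∈ WInd V A.subtype g W) ↔
      ∀ i, ∃ v, ∀ σ ∈ D i, V (y (σ : G)) 1 - (τ σ *ᵥ v - v) ∈ W i) := by
    intro y hy
    have h1 := gr_sh hI d (fun i σ x hx => hW i σ x hx) (y := fun a : A => y a)
      (fun s t => hy.2 s t)
    have h2 : (∃ v, ∀ σ ∈ A, y σ - (R σ *ᵥ v - v) ∈ WInd V A.subtype g W) ↔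
        ∃ v, ∀ a : A, y a - (R (A.subtype a) *ᵥ v - v) ∈ WInd V A.subtype g W :=
      ⟨fun ⟨v, hv⟩ => ⟨v, fun a => hv a a.2⟩, fun ⟨v, hv⟩ => ⟨v, fun σ hσ => hv ⟨σ, hσ⟩⟩⟩
    rw [h2, h1]
    refine forall_congr' fun i => ?_
    have h3 := add_cob (B := fun σ : D i => τ ((D i).subtype σ)) (M := W i)
      (y := fun σ : D i => V (y ((σ : H) : G)) 1) (z := shP V g e i (fun a : A => y a))
      (w := V (y (g i)⁻¹) 1) (fun σ => by
        show V (y (e i σ : G)) (g i) = _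
        rw [hee]
        exact shP_glob hI hy.2 (g i) σ)
    rw [h3]
    exact ⟨fun ⟨v, hv⟩ => ⟨v, fun σ hσ => hv ⟨σ, hσ⟩⟩, fun ⟨v, hv⟩ => ⟨v, fun σ => hv σ σ.2⟩⟩
  have hA2 : ∀ {y : G → Fin m → E}, Parity.IsCocycle R y →
      ((∃ v, ∀ σ ∈ A', y σ - (R σ *ᵥ v - v) ∈ Parity.annih bW (WInd V A.subtype g W)) ↔
      ∀ i, ∃ v, ∀ σ ∈ D i, V (y (kH κ hκH σ : G)) 1 - (τ (kH κ hκH σ) *ᵥ v - v) ∈
        Parity.annih b (W i)) := by
    intro y hy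
    have hyk : ∀ s t, y (κ (s * t)) = y (κ s) + (R.comp κ) s *ᵥ y (κ t) := by
      intro s t
      rw [map_mul, hy.2]
      rfl
    have h1 := gr_sh hI' d (W := fun i => Parity.annih b (W i)) hWa (y := fun a : A => y (κ a))
      (fun s t => hyk s t)
    have h2 : (∃ v, ∀ σ ∈ A', y σ - (R σ *ᵥ v - v) ∈ Parity.annih bW (WInd V A.subtype g W)) ↔
        ∃ v, ∀ a : A, y (κ a) - ((R.comp κ) (A.subtype a) *ᵥ v - v) ∈
          WInd (valK κ V) A.subtype g (fun i => Parity.annih b (W i)) := by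
      rw [hann]
      refine ⟨fun ⟨v, hv⟩ => ⟨v, fun a => hv (κ a) ((hA' _).2 (by rw [hκκ]; exact a.2))⟩,
        fun ⟨v, hv⟩ => ⟨v, fun σ hσ => ?_⟩⟩
      have h3 := hv ⟨κ σ, (hA' σ).1 hσ⟩
      have h4 : y (κ (κ σ)) - (R (κ (κ σ)) *ᵥ v - v) ∈
          WInd (valK κ V) A.subtype g (fun i => Parity.annih b (W i)) := h3
      rwa [hκκ] at h4
    rw [h2, h1]
    refine forall_congr' fun i => ?_
    have h3 := add_cob (B := fun σ : D i => (τ.comp (kH κ hκH)) ((D i).subtype σ))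
      (M := Parity.annih b (W i))
      (y := fun σ : D i => V (y (κ ((σ : H) : G))) 1)
      (z := shP (valK κ V) g e i (fun a : A => y (κ a)))
      (w := valK κ V (y (κ (g i)⁻¹)) 1) (fun σ => by
        show valK κ V (y (κ (e i σ : G))) (g i) = _
        rw [hee]
        have h4 := shP_glob hI' (y := fun a => y (κ a)) hyk (g i) σ
        refine h4.trans ?_
        have h5 : valK κ V (y (κ ((σ : H) : G))) 1 = V (y (κ ((σ : H) : G))) 1 := by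
          rw [valK_apply, map_one]
        rw [h5]
        rfl)
    rw [h3]
    exact ⟨fun ⟨v, hv⟩ => ⟨v, fun σ hσ => hv ⟨σ, hσ⟩⟩, fun ⟨v, hv⟩ => ⟨v, fun σ => hv σ σ.2⟩⟩
  ext y
  constructor
  · rintro ⟨⟨hyc, hin, h1⟩, -, -, h2⟩
    rw [mem_LW]
    refine ⟨hyc, fun _ => ?_⟩
    refine ⟨shP_coc hI d₀ dt₀ hyc (), ?_, fun i => ⟨(hA1 hyc).1 h1 i, (hA2 hyc).1 h2 i⟩⟩
    rintro I ⟨J, hJ, rfl⟩
    obtain ⟨v, hv⟩ := (iner_iff hI hyc.2 hconj).1 hin J hJ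
    exact ⟨v, fun σ hσ => hv σ hσ⟩
  · intro hy
    rw [mem_LW] at hy
    obtain ⟨hyc, hse⟩ := hy
    obtain ⟨hx, hin, hlo⟩ := hse ()
    have hin' : ∀ I ∈ 𝓘, ∃ v, ∀ σ ∈ I, y σ = R σ *ᵥ v - v := by
      refine (iner_iff hI hyc.2 hconj).2 fun J hJ => ?_
      obtain ⟨v, hv⟩ := hin (J.subgroupOf H) ⟨J, hJ, rfl⟩
      exact ⟨v, fun σ hσ => hv σ hσ⟩
    exact ⟨⟨hyc, hin', (hA1 hyc).2 fun i => (hlo i).1⟩, ⟨hyc, hin', (hA2 hyc).2 fun i => (hlo i).2⟩⟩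

end Pool.Agent.Work.MP_787500_nt.SG
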