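import Mathlib
import Pool.Agent.Work.MP_787500_nt.SG.Key

/-!
The ordinary parity formula over `H` from the ordinary parity formula for the induced representation.
-/

set_option autoImplicit false
set_option linter.unusedSectionVars false

namespace Pool.Agent.Work.MP_787500_nt.SG

open Matrix
open Pool.Agent.Work.MP_787500_nt.SH

variable {G : Type*} [Group G] [TopologicalSpace G] [IsTopologicalGroup G] {H : Subgroup G}
  [Fintype (G ⧸ H)] {E : Type*} [NormedField E] {n m : ℕ}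
  {τ : H →* Matrix (Fin n) (Fin n) E} {R : G →* Matrix (Fin m) (Fin m) E}
  {V : (Fin m → E) →ₗ[E] (G → Fin n → E)} {χ : G → E} {b : Matrix (Fin n) (Fin n) E}
  {bW : Matrix (Fin m) (Fin m) E} {κ : G →* G}
  {A A' : Subgroup G} {Φ : Type*} [Fintype Φ] {A₁ : Φ → Subgroup G} {g : Φ → G}
  {W : Φ → Submodule E (Fin n → E)}

theorem main_ord (hH : IsOpen (H : Set G)) (hκκ : ∀ a, κ (κ a) = a) (hκH : ∀ a ∈ H, κ a ∈ H)
    (hI : IsInd τ R V) (hF : IndForm H χ b bW V (valK κ V)) (hχ1 : χ 1 = 1)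
    (hχ : ∀ a a', χ (a * a') = χ a * χ a') (hτc : Continuous τ)
    (hdτ : ∀ h : H, (τ h)ᵀ * b * τ (kH κ hκH h) = χ h • b)
    {𝓘 : Set (Subgroup G)}
    (hconj : ∀ I ∈ 𝓘, ∀ a : G, I.comap (MulAut.conj a).toMonoidHom ∈ 𝓘)
    (hA' : ∀ a, a ∈ A' ↔ κ a ∈ A) (hA : ∀ i a, a ∈ A₁ i ↔ g i * a * (g i)⁻¹ ∈ A)
    (hg : ∀ a : G, ∃! i, ∃ (d : A) (h : H), a = d * g i * h)
    (hW : ∀ i, ∀ σ ∈ (A₁ i).subgroupOf H, ∀ x ∈ W i, τ σ *ᵥ x ∈ W i) {s : Prop} {a : ℕ}
    (hpar : Parity.ParityOrdinary 𝓘 R A A' (WInd V A.subtype g W)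
      (Parity.annih bW (WInd V A.subtype g W)) s a) :
    ParityOrdFam {I | ∃ J ∈ 𝓘, I = J.subgroupOf H} (kH κ hκH) τ b (fun i => (A₁ i).subgroupOf H) W
      (fun i => H.relIndex (A₁ i)) s a := by
  classical
  let e : ∀ i, (A₁ i).subgroupOf H →* A := fun i =>
    (((MulAut.conj (g i)).toMonoidHom.comp H.subtype).comp
      ((A₁ i).subgroupOf H).subtype).codRestrict A (fun b => (hA i _).1 b.2)
  obtain ⟨t, ix, η, d⟩ := exists_dc (j := A.subtype) (q := fun i => ((A₁ i).subgroupOf H).subtype)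
    (g := g) (e := e) (Subgroup.subtype_injective A) (fun i => Subgroup.subtype_injective _)
    (fun i b => rfl)
    (fun i h x hx => ⟨⟨h, (hA i _).2 (by
      have h0 : (x : G) = g i * h * (g i)⁻¹ := hx
      show g i * (h : G) * (g i)⁻¹ ∈ A
      rw [← h0]
      exact x.2)⟩, rfl⟩)
    (fun a => hg a)
  obtain ⟨t₀, ix₀, η₀, d₀⟩ := exists_dc_glob H
  have dt₀ : DCT (MonoidHom.id G) (fun _ : Unit => MonoidHom.id H) (fun _ => H.subtype) η₀ :=
    ⟨continuous_id, fun _ => Topology.IsInducing.id, fun _ => continuous_subtype_val,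
      d₀.continuous_eta hH⟩
  have hW' : ∀ i, ∀ σ : (A₁ i).subgroupOf H, ∀ x ∈ W i, τ (σ : H) *ᵥ x ∈ W i := fun i σ x hx =>
    hW i σ σ.2 x hx
  have hI' : IsInd (τ.comp (kH κ hκH)) (R.comp κ) (valK κ V) := hI.kap hκκ hκH
  have hkey := key hκκ hκH hI hF hχ1 hχ hdτ hconj hA' (fun i x => rfl) d d₀ dt₀ hW'
  obtain ⟨h2, h3, h4⟩ := hpar
  rw [hkey] at h2 h3 h4
  set S := selOrdFam {I | ∃ J ∈ 𝓘, I = J.subgroupOf H} (kH κ hκH) τ b
    (fun i => (A₁ i).subgroupOf H) W with hS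
  have hcob : Parity.coboundaries τ ≤ S := by
    rintro x ⟨v, hv⟩
    refine ⟨⟨?_, fun s t => ?_⟩, fun I _ => ⟨v, fun σ _ => hv σ⟩, fun i => ⟨⟨v, fun σ _ => ?_⟩,
      ⟨v, fun σ _ => ?_⟩⟩⟩
    · have h1 : x = fun σ => τ σ *ᵥ v - v := funext hv
      rw [h1]
      exact (hτc.matrix_mulVec continuous_const).sub continuous_const
    · rw [hv, hv, hv, map_mul, ← mulVec_mulVec, mulVec_sub]
      abel
    · rw [hv, sub_self]
      exact (W i).zero_mem
    · rw [hv, sub_self]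
      exact (Parity.annih b (W i)).zero_mem
  have hSb : ∀ _ : Unit, Parity.Between (Parity.coboundaries (fun b : H => τ (MonoidHom.id H b)))
      S (Parity.cocycles (fun b : H => τ (MonoidHom.id H b))) := fun _ =>
    ⟨hcob, fun x hx => hx.1⟩
  have hfdS : FiniteDimensional E S := (fd_LW hI d₀ dt₀ hSb).1 h2 ()
  refine ⟨hfdS, hcob, ?_⟩
  have e3 : Parity.dimModulo (LW (fun a : G => R a) V
      (fun _ : Unit => (1 : G)) (fun _ : Unit => H.subtype) (fun _ : Unit => S))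
      (Parity.coboundaries R) = Parity.dimModulo S (Parity.coboundaries τ) := by
    have h5 := dim_LW hI d₀ dt₀ hSb (fun _ => hfdS)
    rw [Fintype.sum_unique] at h5
    exact h5
  have e4 : Module.finrank E (Parity.fixedBy (fun σ : G => R σ)) =
      Module.finrank E (Parity.fixedBy (fun σ : H => τ σ)) := by
    have h5 := fix_LW hI d₀
    rw [Fintype.sum_unique] at h5
    exact h5
  have e5 : Module.finrank E (WInd V A.subtype g W) =
      ∑ i, H.relIndex (A₁ i) * Module.finrank E (W i) :=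
    finrank_WInd hI hA hg fun i h hh x hx => hW i h hh x hx
  have e6 : Parity.dimModulo (Parity.fixedModulo (fun σ : A => R σ) (WInd V A.subtype g W))
      (WInd V A.subtype g W) = ∑ i, Parity.dimModulo
        (Parity.fixedModulo (fun σ : (A₁ i).subgroupOf H => τ σ) (W i)) (W i) :=
    dim_fixW hI d (fun i σ x hx => hW' i σ x hx)
  have hann := annih_WInd hI d hκκ hκH hF hχ1 hχ hdτ (fun i σ x hx => hW' i σ x hx)
  have hdd : ∀ (h : H) (x y : Fin n → E),
      (τ h *ᵥ x) ⬝ᵥ (b *ᵥ (τ (kH κ hκH h) *ᵥ y)) = χ h * (x ⬝ᵥ (b *ᵥ y)) := by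
    intro h x y
    rw [← vecMul_transpose, ← dotProduct_mulVec, mulVec_mulVec, mulVec_mulVec, hdτ, smul_mulVec,
      dotProduct_smul, smul_eq_mul]
  have hWa : ∀ i, ∀ σ : (A₁ i).subgroupOf H, ∀ x ∈ Parity.annih b (W i),
      (τ.comp (kH κ hκH)) (((A₁ i).subgroupOf H).subtype σ) *ᵥ x ∈ Parity.annih b (W i) := by
    intro i σ x hx w hw
    have h1 := hx _ (hW' i σ⁻¹ w hw)
    have h2 := hdd (σ : H) (τ ((σ⁻¹ : (A₁ i).subgroupOf H) : H) *ᵥ w) x
    have h3 : τ (σ : H) *ᵥ (τ ((σ⁻¹ : (A₁ i).subgroupOf H) : H) *ᵥ w) = w := by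
      rw [mulVec_mulVec, ← map_mul]
      show τ ((σ : H) * (σ : H)⁻¹) *ᵥ w = w
      rw [mul_inv_cancel, map_one, one_mulVec]
    rw [h3, h1, mul_zero] at h2
    exact h2
  have e7 : Parity.dimModulo (Parity.fixedModulo (fun σ : A' => R σ)
      (Parity.annih bW (WInd V A.subtype g W))) (Parity.annih bW (WInd V A.subtype g W)) =
      ∑ i, Parity.dimModulo (Parity.fixedModulo (fun σ : (A₁ i).subgroupOf H => τ (kH κ hκH σ))
        (Parity.annih b (W i))) (Parity.annih b (W i)) := by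
    have h5 : Parity.fixedModulo (fun σ : A' => R σ) (Parity.annih bW (WInd V A.subtype g W)) =
        Parity.fixedModulo (fun a : A => (R.comp κ) (A.subtype a))
          (Parity.annih bW (WInd V A.subtype g W)) := by
      ext v
      constructor
      · intro h a
        exact h ⟨κ a, (hA' _).2 (by rw [hκκ]; exact a.2)⟩
      · rintro h ⟨σ, hσ⟩
        have h6 := h ⟨κ σ, (hA' σ).1 hσ⟩
        have h7 : R (κ (κ σ)) *ᵥ v - v ∈ Parity.annih bW (WInd V A.subtype g W) := h6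
        rwa [hκκ] at h7
    rw [h5, hann]
    exact dim_fixW hI' d hWa
  rw [e3, e4, e5, e6] at h4
  rw [← Finset.sum_add_distrib] at h4
  have e8 : (if s then Parity.dimModulo (Parity.fixedModulo (fun σ : A' => R σ)
      (Parity.annih bW (WInd V A.subtype g W))) (Parity.annih bW (WInd V A.subtype g W)) else 0) =
      ∑ i, if s then Parity.dimModulo
        (Parity.fixedModulo (fun σ : (A₁ i).subgroupOf H => τ (kH κ hκH σ))
        (Parity.annih b (W i))) (Parity.annih b (W i)) else 0 := by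
    by_cases hs : s
    · rw [if_pos hs, e7]
      exact Finset.sum_congr rfl fun i _ => (if_pos hs).symm
    · rw [if_neg hs, Finset.sum_congr rfl fun i _ => if_neg hs, Finset.sum_const_zero]
  rw [e8, ← Finset.sum_add_distrib] at h4
  exact h4

end Pool.Agent.Work.MP_787500_nt.SG
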