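import Mathlib
import Pool.Agent.Work.MP_787500_nt.OV.Main
import Pool.Agent.Work.MP_787500_nt.RB.ExtPar
import Pool.Agent.Work.MP_787500_nt.RB.ExtGr
import Pool.Agent.Work.MP_787500_nt.RB.ExtLoc

/-!
The parity theorem for ordinary Selmer groups for representations that have a matrix `C` as in `SH.HasL` over a finite
extension of the coefficient field.
-/

set_option autoImplicit false
set_option linter.unusedSectionVars false

namespace Pool.Agent.Work.MP_787500_nt.SG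

open Matrix NumberField
open Pool.Agent.Work.MP_787500_nt.PA (cyc toE)
open Pool.Agent.Work.MP_787500_nt.LX (mapRep)
open Pool.Agent.Work.MP_787500_nt.GP (bil inT stabD)
open Pool.Agent.Work.MP_787500_nt.HP (stb)
open Pool.Agent.Work.MP_787500_nt.KS (iK)
open Pool.Agent.Work.MP_787500_nt.Parity

universe u v

variable {K : Type u} [Field K] [NumberField K] {D : ℕ} {s : K}
  {c : AlgebraicClosure K ≃+* AlgebraicClosure K} {κ : AbsGal K →* AbsGal K}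
  {P P' : Ideal (𝓞 (AlgebraicClosure K))}

open scoped Classical in
theorem ord_ext (hK : QX.IsI K D s) (hc : PA.IsConj s c)
    (hκ : ∀ (σ : AbsGal K) (x : AlgebraicClosure K), κ σ x = c (σ (c x))) (hP : P.IsPrime)
    (hP2 : (2 : 𝓞 (AlgebraicClosure K)) ∈ P)
    (hPP : ∀ x y : 𝓞 (AlgebraicClosure K), (y : AlgebraicClosure K) = c x → (y ∈ P' ↔ x ∈ P))
    {T : Finset ℕ} (hT : ∀ l ∈ T, l.Prime ∧ l ≠ 2)
    {Q : ℕ → Ideal (𝓞 (AlgebraicClosure K))}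
    (hQ : ∀ l ∈ T, (Q l).IsPrime ∧ (l : 𝓞 (AlgebraicClosure K)) ∈ Q l)
    {E : Type v} [NormedField E] [NormedAlgebra ℚ_[2] E] [FiniteDimensional ℚ_[2] E] {n : ℕ}
    {ρ : AbsGal K →* Matrix (Fin n) (Fin n) E} {b : Matrix (Fin n) (Fin n) E} (hb : b.det ≠ 0)
    (hρ : IsDualRep (inT K T) (cyclo E) κ ρ b)
    (hC : ∃ (E' : Type v) (_ : NormedField E') (_ : NormedAlgebra ℚ_[2] E')
      (_ : FiniteDimensional ℚ_[2] E') (ι : E →ₐ[ℚ_[2]] E'),
      SH.HasL (fun _ => False) κ (mapRep ι ρ) (b.map ι))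
    (hI : ∀ l ∈ T, GA.Inr D l → CommOn ((Q l).inertia (AbsGal K)) ρ ∨ n = 2)
    (hR : ∀ l ∈ T, l ∣ D → SemistableOn ((Q l).inertia (AbsGal K)) ρ)
    {W : Submodule E (Fin n → E)} (hW : ∀ σ ∈ stabD P, ∀ x ∈ W, ρ σ *ᵥ x ∈ W)
    (hW' : ∀ g : AbsGal K, (∀ x : 𝓞 (AlgebraicClosure K), x ∈ P' ↔ g • x ∈ P) →
      ∀ y, y ∈ annih b W ↔ ρ g *ᵥ y ∈ W) :
    ParityOrdinary (inertiaOffTwo K) ρ (stabD P) (stabD P') W (annih b W) (D % 8 = 7)
      (∑ l ∈ T.filter (GA.Inr D), Parity.condExp ((Q l).inertia (AbsGal K)) ρ +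
        ∑ l ∈ T.filter (fun l => l ∣ D),
          quotDim (stabD (Q l)) ((Q l).inertia (AbsGal K)) ρ) := by
  obtain ⟨E', i1, i2, i3, ι, hC'⟩ := hC
  have hI' : ∀ l ∈ T, GA.Inr D l → CommOn ((Q l).inertia (AbsGal K)) (mapRep ι ρ) ∨ n = 2 :=
    fun l hl hi => (hI l hl hi).imp_left (QG.commOn_ext ι).2
  have hR' : ∀ l ∈ T, l ∣ D → SemistableOn ((Q l).inertia (AbsGal K)) (mapRep ι ρ) :=
    fun l hl hi => (ER.semi_ext ι).2 (hR l hl hi)
  have hb' := RB.det_fin ι hb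
  have hρ' := RB.isDualRep_fin (χ := cyc) ι hρ
  refine OV.ord_all hK hc hκ hP hP2 hPP hb hρ hW hW' (fun hD => ?_) fun g₀ h0 h2 hiso => ?_
  · have h := QG.main_gen4 (κ := κ) ⟨hK.deg, hK.sq, hK.sqf, hD⟩ hc hκ hP hP2 hT hQ hb' hρ' hC' hI' hR'
    simp only [RB.condExp_fin, RB.quotDim_fin] at h
    exact RB.parityBKA_fin (χ := cyc) ι h
  · obtain ⟨d, β, hβ⟩ := RB.exists_finExt ι
    have h := QX.main_gen6 (κ := κ) (W := hβ.extV W) hK hc hκ hP hP2 hT hQ hb' hρ' hC' hI' hR' h0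
      (fun σ hσ => hβ.extV_st (hW σ hσ)) (by rw [hβ.finrank_extV, h2])
      (hβ.extV_iso hiso)
    simp only [RB.condExp_fin, RB.quotDim_fin] at h
    exact RB.parityG_fin hβ h

end Pool.Agent.Work.MP_787500_nt.SG
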