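import Mathlib
import Pool.Agent.Work.MP_787500_nt.SG.Ann

/-!
The annihilator of `WInd` if the decomposition group is stable under `κ` up to conjugation.
-/

set_option autoImplicit false
set_option linter.unusedSectionVars false

namespace Pool.Agent.Work.MP_787500_nt.SG

open Matrix
open Pool.Agent.Work.MP_787500_nt.SH

variable {G : Type*} [Group G] {H : Subgroup G} {E : Type*} [NormedField E] {n m : ℕ}
  {τ : H →* Matrix (Fin n) (Fin n) E} {R : G →* Matrix (Fin m) (Fin m) E}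
  {V : (Fin m → E) →ₗ[E] (G → Fin n → E)}
  {A : Subgroup G} {Φ : Type*} {B : Φ → Type*} [∀ i, Group (B i)]
  {q : ∀ i, B i →* H} {g : Φ → G} {e : ∀ i, B i →* A} {t : G → A} {ix : G → Φ} {η : G → H}
  {W : Φ → Submodule E (Fin n → E)}

theorem annih_swap (hI : IsInd τ R V) (d : DC A.subtype q g e t ix η) [Fintype (G ⧸ H)] {χ : G → E}
    {b : Matrix (Fin n) (Fin n) E} {bW : Matrix (Fin m) (Fin m) E} {κ : G →* G}
    (hκκ : ∀ a, κ (κ a) = a) (hκH : ∀ a ∈ H, κ a ∈ H)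
    (hF : IndForm H χ b bW V (valK κ V)) (hχ1 : χ 1 = 1) (hχ : ∀ a a', χ (a * a') = χ a * χ a')
    (hd : ∀ h : H, (τ h)ᵀ * b * τ (kH κ hκH h) = χ (h : G) • b)
    (hW : ∀ i b, ∀ x ∈ W i, τ (q i b) *ᵥ x ∈ W i) {γ : G}
    (hγ : ∀ a, a ∈ A ↔ γ * κ a * γ⁻¹ ∈ A)
    (hrel : ∀ i j (h : H), γ * κ (g i) * (h : G)⁻¹ * (g j)⁻¹ ∈ A →
      ∀ y, y ∈ Parity.annih b (W i) ↔ τ h *ᵥ y ∈ W j) (y : Fin m → E) :
    y ∈ Parity.annih bW (WInd V A.subtype g W) ↔ R γ *ᵥ y ∈ WInd V A.subtype g W := by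
  have hg : ∀ a : G, ∃ i, ∃ (x : A) (h : H), a = x * g i * h := fun a => ⟨ix a, t a, η a, d.dec a⟩
  rw [annih_WInd hI d hκκ hκH hF hχ1 hχ hd hW, mem_WInd, mem_WInd]
  have e1 : ∀ i (a : A), valK κ V y (A.subtype a * g i) = V y (κ ((a : G) * g i)) := fun i a => rfl
  have e2 : ∀ i (a : A), V (R γ *ᵥ y) (A.subtype a * g i) = V y (γ⁻¹ * ((a : G) * g i)) :=
    fun i a => hI.act _ _ _
  have hmul : ∀ (a : G) (h : H), τ h *ᵥ V y (a * h) = V y a := fun a h => hI.eqv y a h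
  constructor
  · intro H1 j a
    rw [e2]
    obtain ⟨i, a₁, k, hk⟩ := hg (κ (γ⁻¹ * ((a : G) * g j)))
    -- `V y (γ⁻¹ a g_j) = τ (κ k)⁻¹ V y (κ (a₁ g_i))`
    have h1 : γ⁻¹ * ((a : G) * g j) = κ ((a₁ : G) * g i) * (kH κ hκH k : H) := by
      rw [kH_coe, ← map_mul, ← hk, hκκ]
    have h2 : γ * κ (g i) * ((kH κ hκH k)⁻¹⁻¹ : H) * (g j)⁻¹ ∈ A := by
      have h3 : κ (g i) * (kH κ hκH k : H) = κ ((a₁ : G)⁻¹) * (γ⁻¹ * ((a : G) * g j)) := by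
        rw [h1, map_mul, map_inv]
        group
      have h4 : γ * κ (g i) * ((kH κ hκH k)⁻¹⁻¹ : H) * (g j)⁻¹ =
          γ * κ ((a₁ : G)⁻¹) * γ⁻¹ * a := by
        rw [inv_inv, mul_assoc γ, h3]
        group
      rw [h4]
      exact A.mul_mem ((hγ _).1 (A.inv_mem a₁.2)) a.2
    have h3 := (hrel i j (kH κ hκH k)⁻¹ (by rwa [Subgroup.coe_inv] at h2)
      (V y (κ ((a₁ : G) * g i)))).1 (H1 i a₁)
    have h4 := hmul (κ ((a₁ : G) * g i)) (kH κ hκH k)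
    rw [← h1] at h4
    rw [← h4, mulVec_mulVec, ← map_mul, inv_mul_cancel, map_one, one_mulVec] at h3
    exact h3
  · intro H1 i a
    rw [e1]
    obtain ⟨j, δ, h, hh⟩ := hg (γ * κ (g i))
    have h2 : γ * κ (g i) * (h : G)⁻¹ * (g j)⁻¹ ∈ A := by
      have h3 : γ * κ (g i) * (h : G)⁻¹ * (g j)⁻¹ = δ := by
        rw [hh]
        group
      rw [h3]
      exact δ.2
    rw [hrel i j h h2]
    have h3 : κ ((a : G) * g i) * ((h⁻¹ : H) : G) =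
        γ⁻¹ * ((γ * κ a * γ⁻¹ * δ : G) * g j) := by
      have h4 : κ (g i) = γ⁻¹ * (δ * g j * h) := by
        rw [← hh]
        group
      rw [map_mul, h4, Subgroup.coe_inv]
      group
    have h4 := hmul (κ ((a : G) * g i)) h⁻¹
    rw [h3] at h4
    rw [← h4, mulVec_mulVec, ← map_mul, mul_inv_cancel, map_one, one_mulVec]
    have h5 := H1 j ⟨γ * κ a * γ⁻¹ * δ, A.mul_mem ((hγ _).1 a.2) δ.2⟩
    rw [e2] at h5
    exact h5

end Pool.Agent.Work.MP_787500_nt.SG
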