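import Mathlib
import Pool.Agent.Work.MP_787500_nt.SH.FinalS
import Pool.Agent.Work.MP_787500_nt.SG.OrdE
import Pool.Agent.Work.MP_787500_nt.SG.Main
import Pool.Agent.Work.MP_787500_nt.SG.Swap
import Pool.Agent.Work.MP_787500_nt.SG.NonsplI

/-!
The parity formula for ordinary Selmer groups over finite extensions of an imaginary quadratic field.
-/

set_option autoImplicit false
set_option linter.unusedSectionVars false

namespace Pool.Agent.Work.MP_787500_nt.SG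

open Matrix NumberField
open Pool.Agent.Work.MP_787500_nt.SH
open Pool.Agent.Work.MP_787500_nt.PA (cyc toE)
open Pool.Agent.Work.MP_787500_nt.LX (mapRep)
open Pool.Agent.Work.MP_787500_nt.GP (inT stabD)
open Pool.Agent.Work.MP_787500_nt.GA (cj mem_cj)

universe u v w₁ w₂

theorem ParityOrdFam.congr {G : Type*} [Group G] [TopologicalSpace G] {E : Type*} [NormedField E]
    {n : ℕ} {N : Set (Subgroup G)} {κ : G → G} {ρ : G →* Matrix (Fin n) (Fin n) E}
    {b : Matrix (Fin n) (Fin n) E} {Φ : Type*} [Fintype Φ] {D : Φ → Subgroup G}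
    {W : Φ → Submodule E (Fin n → E)} {f : Φ → ℕ} {s : Prop} {a a' : ℕ}
    (h : ParityOrdFam N κ ρ b D W f s a) (ha : a ≡ a' [MOD 2]) :
    ParityOrdFam N κ ρ b D W f s a' := by
  obtain ⟨h1, h2, h3⟩ := h
  exact ⟨h1, h2, h3.trans (Nat.ModEq.add_left _ ha)⟩

section quad

variable {K : Type u} [Field K] [NumberField K] {D : ℕ} {s : K}
  {c : AlgebraicClosure K ≃+* AlgebraicClosure K} {κ : AbsGal K →* AbsGal K}

/-- the relation between the primes `P i`, `P j` from the double cosets -/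
theorem rel_of_mem (X : QS.Two (KS.iK K) c κ)
    (hκ : ∀ (σ : AbsGal K) (x : AlgebraicClosure K), κ σ x = c (σ (c x)))
    {P₀ Pi Pj : Ideal (𝓞 (AlgebraicClosure K))} {gi gj γ h : AbsGal K}
    (hi : ∀ x, x ∈ Pi ↔ gi • x ∈ P₀) (hj : ∀ x, x ∈ Pj ↔ gj • x ∈ P₀)
    (hγ : ∀ x : 𝓞 (AlgebraicClosure K), x ∈ cj c P₀ ↔ γ • x ∈ P₀)
    (hm : γ * κ gi * h⁻¹ * gj⁻¹ ∈ stabD P₀) {x y : 𝓞 (AlgebraicClosure K)}
    (hxy : (y : AlgebraicClosure K) = c x) : x ∈ Pi ↔ h • y ∈ Pj := by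
  have hcc : ∀ z, c (c z) = z := fun z => by
    have h1 : (c * c) z = z := by
      rw [X.cc]
      rfl
    exact h1
  have h1 : HP.og c (κ gi • y) = gi • x := by
    apply RingOfIntegers.ext
    rw [HP.og_coe]
    show c (κ gi (y : AlgebraicClosure K)) = gi (x : AlgebraicClosure K)
    rw [hκ, hcc, hxy, hcc]
  have h2 : κ gi • y ∈ cj c P₀ ↔ gi • x ∈ P₀ := by
    have hci : c⁻¹ = c := inv_eq_of_mul_eq_one_left X.cc
    rw [mem_cj, hci, h1]
  have h3 : ∀ z : 𝓞 (AlgebraicClosure K), z ∈ P₀ ↔ (γ * κ gi * h⁻¹ * gj⁻¹) • z ∈ P₀ := hm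
  rw [hi, ← h2, hγ, hj, h3 (gj • h • y)]
  have h4 : (γ * κ gi * h⁻¹ * gj⁻¹) • gj • h • y = γ • κ gi • y := by
    simp only [← mul_smul]
    congr 1
    group
  rw [h4]

open scoped Classical in
/-- The parity formula for ordinary Selmer groups over the open subgroup `H`. -/
theorem final_G (hK : QX.IsI K D s) (hc : PA.IsConj s c)
    (hκ : ∀ (σ : AbsGal K) (x : AlgebraicClosure K), κ σ x = c (σ (c x)))
    {P₀ : Ideal (𝓞 (AlgebraicClosure K))} (hP₀ : P₀.IsPrime)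
    (hP2 : (2 : 𝓞 (AlgebraicClosure K)) ∈ P₀) {T : Finset ℕ} (hT : ∀ l ∈ T, l.Prime ∧ l ≠ 2)
    {H : Subgroup (AbsGal K)} (hH : IsOpen (H : Set (AbsGal K))) (hκH : ∀ a ∈ H, κ a ∈ H)
    (hTH : ∀ σ ∈ inT K T, σ ∈ H)
    {E : Type v} [NormedField E] [NormedAlgebra ℚ_[2] E] [FiniteDimensional ℚ_[2] E] {n : ℕ}
    {τ : H →* Matrix (Fin n) (Fin n) E} {b : Matrix (Fin n) (Fin n) E} (hb : b.det ≠ 0)
    (hρ : Parity.IsDualRep {σ : H | (σ : AbsGal K) ∈ inT K T} (fun σ : H => Parity.cyclo E (σ : AbsGal K))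
      (kH κ hκH) τ b)
    (hn : Even n)
    (hN : ∃ (E' : Type v) (_ : NormedField E') (_ : NormedAlgebra ℚ_[2] E')
      (_ : FiniteDimensional ℚ_[2] E') (ι : E →ₐ[ℚ_[2]] E'),
      HasL (fun _ => False) (kH κ hκH) (mapRep ι τ) (b.map ι))
    {Ψ : ℕ → Type*} [∀ l, Fintype (Ψ l)] {Q : ∀ l, Ψ l → Ideal (𝓞 (AlgebraicClosure K))}
    (hQ : ∀ l ∈ T, GA.Inr D l ∨ l ∣ D →
      IsReps H {Q | Q.IsPrime ∧ (l : 𝓞 (AlgebraicClosure K)) ∈ Q} (Q l))
    (hI : ∀ l ∈ T, GA.Inr D l → (n = 2 ∧ H = ⊤) ∨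
      ∀ i, CommInd ((Q l i).inertia (AbsGal K)) τ)
    (hR : ∀ l ∈ T, l ∣ D → ∀ i, (Q l i).inertia (AbsGal K) ≤ H ∧
      Parity.SemistableOn (((Q l i).inertia (AbsGal K)).subgroupOf H) τ)
    {Φ : Type*} [Fintype Φ] {P : Φ → Ideal (𝓞 (AlgebraicClosure K))} (hP : ∀ i, (P i).IsPrime)
    (hPu : ∀ i, (P i).comap (algebraMap (𝓞 K) (𝓞 (AlgebraicClosure K))) =
      P₀.comap (algebraMap (𝓞 K) (𝓞 (AlgebraicClosure K))))
    (hrep : ∀ Q : Ideal (𝓞 (AlgebraicClosure K)), Q.IsPrime →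
      Q.comap (algebraMap (𝓞 K) (𝓞 (AlgebraicClosure K))) =
        P₀.comap (algebraMap (𝓞 K) (𝓞 (AlgebraicClosure K))) →
      ∃! i, ∃ h ∈ H, ∀ x, x ∈ P i ↔ h • x ∈ Q)
    {W : Φ → Submodule E (Fin n → E)}
    (hW : ∀ i, ∀ σ ∈ (stabD (P i)).subgroupOf H, ∀ x ∈ W i, τ σ *ᵥ x ∈ W i)
    (hWc : ∀ i j (h : H), (∀ x y : 𝓞 (AlgebraicClosure K), (y : AlgebraicClosure K) = c x →
        (x ∈ P i ↔ (h : AbsGal K) • y ∈ P j)) →
      ∀ y, y ∈ Parity.annih b (W i) ↔ τ h *ᵥ y ∈ W j) :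
    ParityOrdFam {I : Subgroup H | ∃ J ∈ Parity.inertiaOffTwo K, I = J.subgroupOf H}
      (kH κ hκH) τ b (fun i => (stabD (P i)).subgroupOf H) W
      (fun i => H.relIndex (stabD (P i))) (D % 8 = 7)
      (∑ l ∈ T.filter (GA.Inr D), condI H τ (fun i => stabD (Q l i))
          (fun i => (Q l i).inertia (AbsGal K)) +
        ∑ l ∈ T.filter (fun l => l ∣ D), condR H τ (fun i => stabD (Q l i))
          (fun i => (Q l i).inertia (AbsGal K))) := by
  have X := QX.two_I hK hc hκ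
  have hκκ : ∀ g, κ (κ g) = g := GA.kap_kap hc hκ
  have hfin : Finite (AbsGal K ⧸ H) := Subgroup.quotient_finite_of_isOpen H hH
  let _ : Fintype (AbsGal K ⧸ H) := Fintype.ofFinite _
  obtain ⟨m, ⟨en⟩⟩ := Finite.exists_equiv_fin ((AbsGal K ⧸ H) × Fin n)
  let r : Rep H n m := ⟨fun x => x.out, fun x => QuotientGroup.out_eq' x, en⟩
  have hcyc := (PA.isInvol (K := K) (c := c) (fun x => hc.sq x) hκ).chi
  have hE : ∀ g : AbsGal K, Parity.cyclo E g = toE E (cyc g) := fun _ => rfl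
  have hχ1 : Parity.cyclo E (1 : AbsGal K) = 1 := by
    rw [hE, PA.isChar_cyc.one]
    show (LB.toEh E) 1 = 1
    exact map_one _
  have hχ : ∀ a a' : AbsGal K, Parity.cyclo E (a * a') = Parity.cyclo E a * Parity.cyclo E a' := by
    intro a a'
    rw [hE, hE, hE, PA.isChar_cyc.mul]
    exact map_mul (LB.toEh E) _ _
  have hχκ : ∀ a : AbsGal K, Parity.cyclo E (κ a) = Parity.cyclo E a := by
    intro a
    rw [hE, hE, hcyc]
  have hd : ∀ h : H, (τ h)ᵀ * b * τ (kH κ hκH h) = Parity.cyclo E (h : AbsGal K) • b := hρ.dual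
  have hL : ∃ (E' : Type v) (_ : NormedField E') (_ : NormedAlgebra ℚ_[2] E')
      (_ : FiniteDimensional ℚ_[2] E') (ι : E →ₐ[ℚ_[2]] E'),
      HasL (fun _ => False) κ (mapRep ι (indR r τ)) ((indF r κ (Parity.cyclo E) b τ).map ι) := by
    obtain ⟨E', i1, i2, i3, ι, hN'⟩ := hN
    refine ⟨E', i1, i2, i3, ι, ?_⟩
    have hτ' := RB.isDualRep_fin (χ := fun σ : H => cyc (σ : AbsGal K)) ι hρ
    have h1 := hasL_ind' (r := r) (χ := cyc) hκκ hκH PA.isChar_cyc.one PA.isChar_cyc.mul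
      hτ'.dual (fun g (hg : False) => hg.elim) (fun g (hg : False) a => hg.elim) hN'
    have h2 : (indF r κ (Parity.cyclo E) b τ).map ι =
        indF r κ (fun g => toE E' (cyc g)) (b.map ι) (mapRep ι τ) := map_indF ι
    rw [mapRep_ind, h2]
    exact h1
  have hdual : Parity.IsDualRep (inT K T) (Parity.cyclo E) κ (indR r τ)
      (indF r κ (Parity.cyclo E) b τ) :=
    isDualRep_ind hH hκκ hκH hχ1 hχ hχκ (fun σ hσ a => (GP.baseT K T).conj a σ hσ) hTH hρ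
  have hF := indForm_ind (r := r) hκκ hκH hχ1 hχ hd
  have hInd : IsInd τ (indR r τ) (indV r τ) := isInd_ind r τ
  have hdet : (indF r κ (Parity.cyclo E) b τ).det ≠ 0 := hF.det hInd hχ1 hχ hκκ hκH hb
  have hm : m = n * H.index := by
    have h1 := Nat.card_congr en
    rw [Nat.card_prod, Nat.card_fin, Nat.card_fin, mul_comm] at h1
    exact h1.symm
  have hme : Even m := by
    rw [hm]
    exact hn.mul_right _
  -- primes over the elements of `T`
  have hR0 : ∀ p : ℕ, ∃ Q : Ideal (𝓞 (AlgebraicClosure K)), p.Prime →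
      Q.IsPrime ∧ (p : 𝓞 (AlgebraicClosure K)) ∈ Q := by
    intro p
    by_cases hp : p.Prime
    · obtain ⟨Q, hQ⟩ := HP.prime_over_nat (Ω := AlgebraicClosure K) hp
      exact ⟨Q, fun _ => hQ⟩
    · exact ⟨⊥, fun h => absurd h hp⟩
  choose Q₀ hQ₀ using hR0
  have hQT : ∀ l ∈ T, (Q₀ l).IsPrime ∧ (l : 𝓞 (AlgebraicClosure K)) ∈ Q₀ l :=
    fun l hl => hQ₀ l (hT l hl).1
  have hex : ∀ l ∈ T, GA.Inr D l ∨ l ∣ D → ∃ g : Ψ l → AbsGal K,
      (∀ i x, x ∈ Q l i ↔ g i • x ∈ Q₀ l) ∧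
      ∀ a : AbsGal K, ∃! i, ∃ (d : stabD (Q₀ l)) (h : H), a = d * g i * h := by
    intro l hl hli
    obtain ⟨q1, q2⟩ := hQ l hl hli
    refine exists_reps' (hQT l hl).1 (fun i => (q1 i).1) (fun i => ?_) (fun Q' hQ' h => ?_)
    · exact comap_nonspl hK hc X (hT l hl).1 hli (q1 i).1 (hQT l hl).1 (q1 i).2 (hQT l hl).2
    · exact q2 Q' ⟨hQ', comap_of_rep h (hQT l hl).2⟩
  have hI' : ∀ l ∈ T, GA.Inr D l →
      Parity.CommOn ((Q₀ l).inertia (AbsGal K)) (indR r τ) ∨ m = 2 := by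
    intro l hl hli
    obtain ⟨g, hg, hg'⟩ := hex l hl (Or.inl hli)
    rcases hI l hl hli with ⟨h, h'⟩ | h
    · right
      rw [hm, h, h', Subgroup.index_top]
    · exact Or.inl (comm_dc hInd ((comm_reps (iner_nor (Q₀ l)) (fun i a => iner_conj (hg i) a)
        hg').2 h))
  have hRS : ∀ l ∈ T, l ∣ D → (∀ σ ∈ (Q₀ l).inertia (AbsGal K), ∀ a, a⁻¹ * σ * a ∈ H) ∧
      Parity.SemistableOn ((Q₀ l).inertia (AbsGal K)) (indR r τ) := by
    intro l hl hli
    obtain ⟨g, hg, hg'⟩ := hex l hl (Or.inr hli)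
    exact semi_ind hInd (iner_nor (Q₀ l)) (fun i a => iner_conj (hg i) a) hg' (hR l hl hli)
  -- the primes over 2
  obtain ⟨g, hg, hg'⟩ := exists_reps' hP₀ hP hPu hrep
  have hgs : ∀ i (a : AbsGal K), a ∈ stabD (P i) ↔ g i * a * (g i)⁻¹ ∈ stabD P₀ :=
    fun i a => stabD_conj (hg i) a
  let e : ∀ i, (stabD (P i)).subgroupOf H →* stabD P₀ := fun i =>
    (((MulAut.conj (g i)).toMonoidHom.comp H.subtype).comp
      ((stabD (P i)).subgroupOf H).subtype).codRestrict (stabD P₀) (fun b => (hgs i _).1 b.2)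
  obtain ⟨t, ix, η, d⟩ := exists_dc (j := (stabD P₀).subtype)
    (q := fun i => ((stabD (P i)).subgroupOf H).subtype) (g := g) (e := e)
    (Subgroup.subtype_injective (stabD P₀)) (fun i => Subgroup.subtype_injective _)
    (fun i b => rfl)
    (fun i h x hx => ⟨⟨h, (hgs i _).2 (by
      have h0 : (x : AbsGal K) = g i * h * (g i)⁻¹ := hx
      show g i * (h : AbsGal K) * (g i)⁻¹ ∈ stabD P₀
      rw [← h0]
      exact x.2)⟩, rfl⟩)
    (fun a => hg' a)
  have hWq : ∀ i (b : (stabD (P i)).subgroupOf H), ∀ x ∈ W i,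
      τ (((stabD (P i)).subgroupOf H).subtype b) *ᵥ x ∈ W i := fun i b x hx => hW i b b.2 x hx
  have hWI : ∀ σ ∈ stabD P₀, ∀ x ∈ WInd (indV r τ) (stabD P₀).subtype g W,
      indR r τ σ *ᵥ x ∈ WInd (indV r τ) (stabD P₀).subtype g W := fun σ hσ x hx =>
    wind_st (j := (stabD P₀).subtype) hInd ⟨σ, hσ⟩ hx
  have hswap : ∀ γ : AbsGal K, (∀ x : 𝓞 (AlgebraicClosure K), x ∈ cj c P₀ ↔ γ • x ∈ P₀) →
      ∀ y, y ∈ Parity.annih (indF r κ (Parity.cyclo E) b τ)
        (WInd (indV r τ) (stabD P₀).subtype g W) ↔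
        indR r τ γ *ᵥ y ∈ WInd (indV r τ) (stabD P₀).subtype g W := by
    intro γ hγ y
    have h0 : KS.iK K γ * c ∈ HP.stb P₀ := (OV.swap_iff X γ).2 hγ
    refine annih_swap hInd d hκκ hκH hF hχ1 hχ hd hWq (fun a => ?_) (fun i j h hm => ?_) y
    · have h1 := OV.mem_stabD_conj X h0 (κ a)
      have h2 := OV.mem_stabD_cj (P := P₀) X (κ a)
      rw [hκκ] at h2
      rw [← h1, h2]
    · exact hWc i j h fun x y hxy => rel_of_mem X hκ (hg i) (hg j) hγ hm hxy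
  have hPP : ∀ x y : 𝓞 (AlgebraicClosure K), (y : AlgebraicClosure K) = c x →
      (y ∈ cj c P₀ ↔ x ∈ P₀) := by
    intro x y hxy
    have hci : c⁻¹ = c := inv_eq_of_mul_eq_one_left X.cc
    rw [mem_cj, hci]
    have h1 : HP.og c y = x := by
      apply RingOfIntegers.ext
      rw [HP.og_coe, hxy]
      exact hc.sq _
    rw [h1]
  have hpar := ord_ext (P' := cj c P₀) hK hc hκ hP₀ hP2 hPP hT hQT hdet hdual hL hI'
    (fun l hl hli => (hRS l hl hli).2) hWI hswap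
  refine (main_ord hH hκκ hκH hInd hF hχ1 hχ hρ.cont hd (fun I hI a => inertia_conj hI a)
    (fun a => OV.mem_stabD_cj X a) hgs hg' hW hpar).congr ?_
  refine Nat.ModEq.add ?_ ?_
  · -- the inert primes
    have key : ∀ l ∈ T.filter (GA.Inr D), Parity.condExp ((Q₀ l).inertia (AbsGal K)) (indR r τ) ≡
        condI H τ (fun i => stabD (Q l i)) (fun i => (Q l i).inertia (AbsGal K)) [MOD 2] := by
      intro l hl
      obtain ⟨hlT, hli⟩ := Finset.mem_filter.1 hl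
      obtain ⟨g, hg, hg'⟩ := hex l hlT (Or.inl hli)
      have e1 := fix_cs hInd (iner_nor (Q₀ l)) (iner_le (Q₀ l)) (fun i a => stabD_conj (hg i) a)
        (fun i a => iner_conj (hg i) a) hg'
      have e2 : Parity.CommOn ((Q₀ l).inertia (AbsGal K)) (indR r τ) ↔
          ∀ i, CommInd ((Q l i).inertia (AbsGal K)) τ := by
        have e3 := comm_reps (τ := τ) (iner_nor (Q₀ l)) (fun i a => iner_conj (hg i) a) hg'
        rw [← e3]
        refine ⟨fun h => ?_, comm_dc hInd⟩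
        rcases hI l hlT hli with ⟨h0, -⟩ | h0
        · exact comm_of_comm hInd (by omega) h
        · exact e3.2 h0
      unfold Parity.condExp condI
      rw [e1]
      refine Nat.ModEq.add ?_ ?_
      · refine modEq_codim hme hn (fun i => ?_) ?_
        · exact (Submodule.finrank_le _).trans_eq (by rw [Module.finrank_fin_fun])
        · rw [← e1]
          exact (Submodule.finrank_le _).trans_eq (by rw [Module.finrank_fin_fun])
      · by_cases h : Parity.CommOn ((Q₀ l).inertia (AbsGal K)) (indR r τ)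
        · rw [if_pos h, if_pos (e2.1 h)]
        · rw [if_neg h, if_neg (fun h' => h (e2.2 h'))]
    exact modEq_sum key
  · rw [Finset.sum_congr rfl fun l hl => ?_]
    obtain ⟨hlT, hli⟩ := Finset.mem_filter.1 hl
    obtain ⟨g, hg, hg'⟩ := hex l hlT (Or.inr hli)
    exact quotDim_ind hInd (iner_le (Q₀ l)) (iner_nor (Q₀ l)) (fun i a => stabD_conj (hg i) a)
      (fun i a => iner_conj (hg i) a) hg' (hRS l hlT hli).1

end quad

end Pool.Agent.Work.MP_787500_nt.SG
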